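import Mathlib

/-!
# The gap between the sufficient and the necessary condition closes

The condition `B_r` is an open condition: if `U ∈ B_r` then `U ∈ B_q` for some `q < r`.

Proof.  Let `P(h) = ∫ h^r / (h^r + |x - c|^r) U(x) dx`.  Comparing the two kernels pointwise one has
`P(2h) + 2^r c₀ U(I) ≤ 2^r P(h)` with `c₀ > 0`, where `I` is the interval with centre `c` and length `h`, and
`P(h) ≤ C U(I)`.  Hence `P(2h) ≤ 2^r θ P(h)` with `θ < 1`, for all `c` and `h`, and the kernel with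
exponent `q` is bounded by a sum of the kernels with exponent `r` at the scales `2^k h` with the weights
`2^(-kq)`.
-/

set_option autoImplicit false

open MeasureTheory Set
open scoped ENNReal NNReal

namespace Pool.Agent.K3h74.GL.Gap

/-- The interval with centre `c` and length `h`. -/
def J (c h : ℝ) : Set ℝ := Icc (c - h / 2) (c + h / 2)

/-- The condition `B_r`: for every interval `I` with centre `c` and length `h > 0`,
`∫ h^{r-1} U(x) / (h^r + |x - c|^r) dx ≤ (C / h) ∫_I U`. -/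
def B (r : ℝ) (U : ℝ → ℝ) : Prop :=
  ∃ C : ℝ≥0, ∀ c h : ℝ, 0 < h →
    ∫⁻ x, ENNReal.ofReal (h ^ (r - 1) * U x / (h ^ r + |x - c| ^ r)) ≤
      (C : ℝ≥0∞) / ENNReal.ofReal h * ∫⁻ x in J c h, ENNReal.ofReal (U x)

/-- The Muckenhoupt condition `A_p`: `(avg_I U) (avg_I U^(-1/(p-1)))^(p-1) ≤ C` for every
interval `I` (with centre `c` and length `h > 0`). -/
def A (p : ℝ) (U : ℝ → ℝ) : Prop :=
  ∃ C : ℝ≥0, ∀ c h : ℝ, 0 < h →
    ((∫⁻ x in J c h, ENNReal.ofReal (U x)) / ENNReal.ofReal h) *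
      ((∫⁻ x in J c h, ENNReal.ofReal (U x) ^ (-(1 / (p - 1)))) / ENNReal.ofReal h) ^ (p - 1) ≤ C

/-! ### Kernels -/

/-- the kernel -/
noncomputable def kr (r h d : ℝ) : ℝ := h ^ r / (h ^ r + d ^ r)

lemma kr_nonneg {r h d : ℝ} (hh : 0 < h) (hd : 0 ≤ d) : 0 ≤ kr r h d := by
  unfold kr
  have := Real.rpow_pos_of_pos hh r
  have := Real.rpow_nonneg hd r
  positivity

lemma kr_le_one {r h d : ℝ} (hh : 0 < h) (hd : 0 ≤ d) : kr r h d ≤ 1 := by
  unfold kr
  have := Real.rpow_pos_of_pos hh r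
  have := Real.rpow_nonneg hd r
  rw [div_le_one (by positivity)]
  linarith

lemma half_le_kr {r h d : ℝ} (hr : 0 ≤ r) (hh : 0 < h) (hd : 0 ≤ d) (hdh : d ≤ h) :
    1 / 2 ≤ kr r h d := by
  unfold kr
  have h1 := Real.rpow_pos_of_pos hh r
  have h2 := Real.rpow_nonneg hd r
  have h3 := Real.rpow_le_rpow hd hdh hr
  rw [div_le_div_iff₀ (by norm_num) (by positivity)]
  linarith

lemma kr_two {r h d : ℝ} (hr : 0 < r) (hh : 0 < h) (hd : 0 ≤ d) (hdh : d ≤ h) :
    kr r (2 * h) d + 2 ^ r * ((2 ^ r - 1) / (2 * (2 ^ r + 1))) ≤ 2 ^ r * kr r h d := by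
  unfold kr
  rw [Real.mul_rpow (by norm_num) hh.le]
  have h1 := Real.rpow_pos_of_pos hh r
  have h2 := Real.rpow_nonneg hd r
  have h3 := Real.rpow_le_rpow hd hdh hr.le
  have h4 : (1 : ℝ) < 2 ^ r := Real.one_lt_rpow (by norm_num) hr
  set a := h ^ r
  set b := d ^ r
  set t := (2 : ℝ) ^ r
  have e : t * (a / (a + b)) - t * a / (t * a + b) =
      t * ((t - 1) * (a * a) / ((a + b) * (t * a + b))) := by
    field_simp
    ring
  have h5 : (t - 1) / (2 * (t + 1)) ≤ (t - 1) * (a * a) / ((a + b) * (t * a + b)) := by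
    rw [div_le_div_iff₀ (by positivity) (by positivity)]
    have h6 : (a + b) * (t * a + b) ≤ (2 * a) * ((t + 1) * a) := by
      apply mul_le_mul <;> nlinarith
    have h7 : 0 ≤ t - 1 := by linarith
    calc (t - 1) * ((a + b) * (t * a + b)) ≤ (t - 1) * ((2 * a) * ((t + 1) * a)) :=
          mul_le_mul_of_nonneg_left h6 h7
      _ = (t - 1) * (a * a) * (2 * (t + 1)) := by ring
  have h8 : 0 < t := by linarith
  nlinarith [mul_le_mul_of_nonneg_left h5 h8.le]

lemma kr_two' {r h d : ℝ} (hr : 0 < r) (hh : 0 < h) (hd : 0 ≤ d) :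
    kr r (2 * h) d ≤ 2 ^ r * kr r h d := by
  unfold kr
  rw [Real.mul_rpow (by norm_num) hh.le]
  have h1 := Real.rpow_pos_of_pos hh r
  have h2 := Real.rpow_nonneg hd r
  have h4 : (1 : ℝ) < 2 ^ r := Real.one_lt_rpow (by norm_num) hr
  rw [mul_div_assoc']
  apply div_le_div_of_nonneg_left (by positivity) (by positivity)
  nlinarith

lemma kr_le_of_le {q r h d : ℝ} (hq : 0 ≤ q) (hqr : q ≤ r) (hh : 0 < h) (hd : 0 ≤ d) :
    kr r h d ≤ 2 * kr q h d := by
  rcases le_total d h with hdh | hdh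
  · have h1 := kr_le_one (r := r) hh hd
    have h2 := half_le_kr hq hh hd hdh
    linarith
  · have hd0 : 0 < d := lt_of_lt_of_le hh hdh
    have hx : 1 ≤ d / h := by rw [le_div_iff₀ hh]; linarith
    have e : ∀ s : ℝ, kr s h d = 1 / (1 + (d / h) ^ s) := by
      intro s
      unfold kr
      rw [Real.div_rpow hd hh.le]
      have := Real.rpow_pos_of_pos hh s
      have := Real.rpow_pos_of_pos hd0 s
      field_simp
    rw [e, e]
    have h1 : (d / h) ^ q ≤ (d / h) ^ r := Real.rpow_le_rpow_of_exponent_le hx hqr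
    have h2 : 1 ≤ (d / h) ^ q := Real.one_le_rpow hx hq
    rw [mul_one_div, div_le_div_iff₀ (by linarith) (by linarith)]
    linarith

/-- the kernel with exponent `q` is bounded by the kernel with exponent `r` at some scale -/
lemma kr_scale {q r h d : ℝ} (hq : 0 ≤ q) (hr : 0 ≤ r) (hh : 0 < h) (hd : 0 ≤ d) :
    ∃ k : ℕ, kr q h d ≤ 2 ^ (q + 1) * (((2 : ℝ) ^ (-q)) ^ k * kr r (2 ^ k * h) d) := by
  by_cases hdh : d ≤ h
  · refine ⟨0, ?_⟩
    have h1 := kr_le_one (r := q) hh hd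
    have h2 := half_le_kr hr hh hd hdh
    have h3 : (2 : ℝ) ≤ 2 ^ (q + 1) := by
      have := Real.rpow_le_rpow_of_exponent_le (x := 2) (by norm_num) (by linarith : (1 : ℝ) ≤ q + 1)
      simpa using this
    simp only [pow_zero, one_mul]
    nlinarith
  · push Not at hdh
    have hex : ∃ k : ℕ, d ≤ 2 ^ k * h := by
      obtain ⟨k, hk⟩ := pow_unbounded_of_one_lt (d / h) (by norm_num : (1 : ℝ) < 2)
      exact ⟨k, by rw [div_lt_iff₀ hh] at hk; exact hk.le⟩
    classical
    have hk := Nat.find_spec hex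
    have hk0 : Nat.find hex ≠ 0 := by
      intro h0
      rw [h0] at hk
      simp at hk
      linarith
    have hmin := Nat.find_min hex (m := Nat.find hex - 1) (by omega)
    push Not at hmin
    set k := Nat.find hex
    refine ⟨k, ?_⟩
    have h2 := half_le_kr hr (by positivity) hd hk
    have h3 : (2 : ℝ) ^ k * h < 2 * d := by
      have e : (2 : ℝ) ^ k = 2 * 2 ^ (k - 1) := by
        rw [← pow_succ', Nat.sub_add_cancel (by omega)]
      rw [e]
      linarith
    have hd0 : 0 < d := hh.trans hdh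
    have h4 : kr q h d ≤ (h / d) ^ q := by
      unfold kr
      rw [Real.div_rpow hh.le hd]
      have := Real.rpow_pos_of_pos hh q
      have := Real.rpow_pos_of_pos hd0 q
      exact div_le_div_of_nonneg_left (by positivity) (by positivity) (by linarith)
    have h5 : (h / d) ^ q ≤ 2 ^ q * ((2 : ℝ) ^ (-q)) ^ k := by
      have e : 2 ^ q * ((2 : ℝ) ^ (-q)) ^ k = (2 / 2 ^ k) ^ q := by
        rw [Real.div_rpow (by norm_num) (by positivity), Real.rpow_neg (by norm_num), inv_pow,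
          ← Real.rpow_natCast, ← Real.rpow_mul (by norm_num), ← Real.rpow_natCast,
          ← Real.rpow_mul (by norm_num), mul_comm q]
        rfl
      rw [e]
      apply Real.rpow_le_rpow (by positivity) _ hq
      rw [div_le_div_iff₀ hd0 (by positivity)]
      linarith
    have h6 : (2 : ℝ) ^ (q + 1) = 2 ^ q * 2 := by
      rw [Real.rpow_add (by norm_num), Real.rpow_one]
    rw [h6]
    have h7 : (0 : ℝ) ≤ ((2 : ℝ) ^ (-q)) ^ k := by positivity
    have h8 : (0 : ℝ) < 2 ^ q := by positivity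
    calc kr q h d ≤ 2 ^ q * ((2 : ℝ) ^ (-q)) ^ k := h4.trans h5
      _ = 2 ^ q * 2 * (((2 : ℝ) ^ (-q)) ^ k * (1 / 2)) := by ring
      _ ≤ 2 ^ q * 2 * (((2 : ℝ) ^ (-q)) ^ k * kr r (2 ^ k * h) d) := by gcongr

/-! ### Integrals -/

/-- the integral of the kernel against `U` -/
noncomputable def P (r : ℝ) (U : ℝ → ℝ) (c h : ℝ) : ℝ≥0∞ :=
  ∫⁻ x, ENNReal.ofReal (kr r h |x - c|) * ENNReal.ofReal (U x)

/-- the mass of an interval -/
noncomputable def m (U : ℝ → ℝ) (c h : ℝ) : ℝ≥0∞ := ∫⁻ x in J c h, ENNReal.ofReal (U x)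

lemma integral_eq (r : ℝ) (U : ℝ → ℝ) {c h : ℝ} (hh : 0 < h) :
    ∫⁻ x, ENNReal.ofReal (h ^ (r - 1) * U x / (h ^ r + |x - c| ^ r)) =
      (ENNReal.ofReal h)⁻¹ * P r U c h := by
  unfold P
  rw [← lintegral_const_mul' _ _ (by simpa using hh)]
  congr 1
  ext x
  rw [← ENNReal.ofReal_inv_of_pos hh, ← mul_assoc,
    ← ENNReal.ofReal_mul (by positivity), ← ENNReal.ofReal_mul]
  · congr 1
    unfold kr
    rw [Real.rpow_sub_one hh.ne']
    ring
  · exact mul_nonneg (by positivity) (kr_nonneg hh (abs_nonneg _))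

lemma B_iff (r : ℝ) (U : ℝ → ℝ) : B r U ↔
    ∃ C : ℝ≥0, ∀ c h : ℝ, 0 < h → P r U c h ≤ C * m U c h := by
  unfold B
  refine exists_congr fun C => forall_congr' fun c => forall_congr' fun h =>
    forall_congr' fun hh => ?_
  rw [integral_eq r U hh, div_eq_mul_inv]
  have h1 : (ENNReal.ofReal h)⁻¹ ≠ 0 := by simp
  have h2 : (ENNReal.ofReal h)⁻¹ ≠ ∞ := by simpa using hh
  have e : (C : ℝ≥0∞) * (ENNReal.ofReal h)⁻¹ * ∫⁻ x in J c h, ENNReal.ofReal (U x) =
      (ENNReal.ofReal h)⁻¹ * (C * m U c h) := by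
    unfold m
    ring
  rw [e]
  exact ENNReal.mul_le_mul_iff_right h1 h2

lemma mem_J {c h x : ℝ} (hh : 0 < h) (hx : x ∈ J c h) : |x - c| ≤ h := by
  unfold J at hx
  rw [mem_Icc] at hx
  rw [abs_le]
  constructor <;> linarith [hx.1, hx.2]

lemma m_lt_top {U : ℝ → ℝ} (hU : LocallyIntegrable U volume) (c h : ℝ) : m U c h < ∞ := by
  have h1 : IntegrableOn U (J c h) volume := hU.integrableOn_isCompact isCompact_Icc
  exact (lintegral_mono (fun x => by
    rw [← ofReal_norm]
    exact ENNReal.ofReal_le_ofReal (le_abs_self _))).trans_lt h1.2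

lemma meas_J (c h : ℝ) : MeasurableSet (J c h) := measurableSet_Icc

lemma aem_ofReal {U : ℝ → ℝ} (hU : LocallyIntegrable U volume) :
    AEMeasurable (fun x => ENNReal.ofReal (U x)) volume :=
  hU.aestronglyMeasurable.aemeasurable.ennreal_ofReal

lemma meas_kr (r h c : ℝ) : Measurable fun x : ℝ => ENNReal.ofReal (kr r h |x - c|) := by
  unfold kr
  fun_prop

/-- the decay of `P` -/
lemma P_two {r : ℝ} (hr : 0 < r) {U : ℝ → ℝ} (hU : LocallyIntegrable U volume) {C : ℝ≥0}
    (hC : 1 ≤ C) (hB : ∀ c h : ℝ, 0 < h → P r U c h ≤ C * m U c h) {c h : ℝ} (hh : 0 < h) :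
    P r U c (2 * h) ≤
      ENNReal.ofReal (2 ^ r * (1 - (2 ^ r - 1) / (2 * (2 ^ r + 1)) / C)) * P r U c h := by
  set c0 : ℝ := (2 ^ r - 1) / (2 * (2 ^ r + 1)) with hc0
  have h4 : (1 : ℝ) < 2 ^ r := Real.one_lt_rpow (by norm_num) hr
  have hc0pos : 0 < c0 := by
    rw [hc0]
    have : (0 : ℝ) < 2 ^ r - 1 := by linarith
    positivity
  have hc0lt : c0 < 1 := by
    rw [hc0, div_lt_one (by positivity)]
    linarith
  have h2r : (0 : ℝ) < 2 ^ r := by positivity
  have key : P r U c (2 * h) + ENNReal.ofReal (2 ^ r * c0) * m U c h ≤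
      ENNReal.ofReal (2 ^ r) * P r U c h := by
    unfold P m
    rw [← lintegral_indicator (meas_J c h), ← lintegral_const_mul' _ _ ENNReal.ofReal_ne_top,
      ← lintegral_const_mul' _ _ ENNReal.ofReal_ne_top, ← lintegral_add_left']
    · apply lintegral_mono
      intro x
      simp only
      by_cases hx : x ∈ J c h
      · rw [indicator_of_mem hx, ← add_mul, ← mul_assoc, ← ENNReal.ofReal_mul h2r.le,
          ← ENNReal.ofReal_add (kr_nonneg (by linarith) (abs_nonneg _)) (by positivity)]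
        refine mul_le_mul_left ?_ _
        exact ENNReal.ofReal_le_ofReal (kr_two hr hh (abs_nonneg _) (mem_J hh hx))
      · rw [indicator_of_notMem hx, mul_zero, add_zero, ← mul_assoc, ← ENNReal.ofReal_mul h2r.le]
        refine mul_le_mul_left ?_ _
        exact ENNReal.ofReal_le_ofReal (kr_two' hr hh (abs_nonneg _))
    · exact (meas_kr r (2 * h) c).aemeasurable.mul (aem_ofReal hU)
  have hCpos : (0 : ℝ) < C := by
    have : (1 : ℝ) ≤ C := by exact_mod_cast hC
    linarith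
  have hfin : P r U c h < ∞ :=
    (hB c h hh).trans_lt (ENNReal.mul_lt_top ENNReal.coe_lt_top (m_lt_top hU c h))
  have hfin2 : P r U c (2 * h) < ∞ :=
    (hB c (2 * h) (by linarith)).trans_lt (ENNReal.mul_lt_top ENNReal.coe_lt_top (m_lt_top hU c _))
  have hm := m_lt_top hU c h
  -- pass to real numbers
  set p1 := (P r U c h).toReal with hp1
  set p2 := (P r U c (2 * h)).toReal with hp2
  set m1 := (m U c h).toReal with hm1
  have e1 : P r U c h = ENNReal.ofReal p1 := (ENNReal.ofReal_toReal hfin.ne).symm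
  have e2 : P r U c (2 * h) = ENNReal.ofReal p2 := (ENNReal.ofReal_toReal hfin2.ne).symm
  have e3 : m U c h = ENNReal.ofReal m1 := (ENNReal.ofReal_toReal hm.ne).symm
  have hp10 : 0 ≤ p1 := ENNReal.toReal_nonneg
  have hp20 : 0 ≤ p2 := ENNReal.toReal_nonneg
  have hm10 : 0 ≤ m1 := ENNReal.toReal_nonneg
  have k1 : p2 + 2 ^ r * c0 * m1 ≤ 2 ^ r * p1 := by
    rw [e1, e2, e3, ← ENNReal.ofReal_mul (by positivity), ← ENNReal.ofReal_mul (by positivity),
      ← ENNReal.ofReal_add hp20 (by positivity)] at key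
    exact (ENNReal.ofReal_le_ofReal_iff (by positivity)).1 key
  have k2 : p1 ≤ C * m1 := by
    have := hB c h hh
    rw [e1, e3, ← ENNReal.ofReal_coe_nnreal, ← ENNReal.ofReal_mul (by positivity)] at this
    exact (ENNReal.ofReal_le_ofReal_iff (by positivity)).1 this
  rw [e1, e2, ← ENNReal.ofReal_mul]
  · apply ENNReal.ofReal_le_ofReal
    have k3 : c0 / C * p1 ≤ c0 * m1 := by
      rw [div_mul_eq_mul_div, div_le_iff₀ hCpos]
      nlinarith
    have k4 : 2 ^ r * (c0 / C * p1) ≤ 2 ^ r * (c0 * m1) := mul_le_mul_of_nonneg_left k3 h2r.le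
    nlinarith
  · have : c0 / C ≤ 1 := by
      rw [div_le_one hCpos]
      have : (1 : ℝ) ≤ C := by exact_mod_cast hC
      linarith
    have h0 : 0 ≤ 1 - c0 / C := by linarith
    positivity

lemma P_pow {r : ℝ} {U : ℝ → ℝ} {K : ℝ≥0∞}
    (h1 : ∀ c h : ℝ, 0 < h → P r U c (2 * h) ≤ K * P r U c h) {c h : ℝ} (hh : 0 < h) (k : ℕ) :
    P r U c (2 ^ k * h) ≤ K ^ k * P r U c h := by
  induction k with
  | zero => simp
  | succ k ih =>
    have := h1 c (2 ^ k * h) (by positivity)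
    rw [pow_succ', mul_assoc]
    refine this.trans ?_
    rw [pow_succ', mul_assoc]
    exact mul_le_mul_right ih _

/-- **Self-improvement.** -/
lemma improve {r : ℝ} (hr : 1 < r) {U : ℝ → ℝ} (hU : LocallyIntegrable U volume) (hB : B r U) :
    ∃ q, 1 < q ∧ q < r ∧ B q U := by
  have hr0 : 0 < r := by linarith
  obtain ⟨C', hC'⟩ := (B_iff r U).1 hB
  set C : ℝ≥0 := C' + 1 with hCdef
  have hC1 : (1 : ℝ≥0) ≤ C := le_add_self
  have hC : ∀ c h : ℝ, 0 < h → P r U c h ≤ C * m U c h := by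
    intro c h hh
    refine (hC' c h hh).trans ?_
    refine mul_le_mul_left ?_ _
    exact_mod_cast (le_self_add : C' ≤ C' + 1)
  set θ : ℝ := 1 - (2 ^ r - 1) / (2 * (2 ^ r + 1)) / C with hθ
  have h4 : (1 : ℝ) < 2 ^ r := Real.one_lt_rpow (by norm_num) hr0
  have hCR : (1 : ℝ) ≤ C := by exact_mod_cast hC1
  have hc0pos : 0 < (2 ^ r - 1) / (2 * ((2 : ℝ) ^ r + 1)) := by
    have : (0 : ℝ) < 2 ^ r - 1 := by linarith
    positivity
  have hc0lt : (2 ^ r - 1) / (2 * ((2 : ℝ) ^ r + 1)) < 1 := by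
    rw [div_lt_one (by positivity)]
    linarith
  have hθ1 : θ < 1 := by
    rw [hθ]
    have : 0 < (2 ^ r - 1) / (2 * ((2 : ℝ) ^ r + 1)) / C := div_pos hc0pos (by linarith)
    linarith
  have hθ0 : 0 < θ := by
    rw [hθ]
    have : (2 ^ r - 1) / (2 * ((2 : ℝ) ^ r + 1)) / C < 1 := by
      rw [div_lt_one (by linarith)]
      linarith
    linarith
  -- choice of `q`
  obtain ⟨q, hq1, hqr, hq2⟩ : ∃ q, 1 < q ∧ q < r ∧ (2 : ℝ) ^ (-q) * (2 ^ r * θ) < 1 := by
    have hcont : Filter.Tendsto (fun q : ℝ => (2 : ℝ) ^ (-q) * (2 ^ r * θ)) (nhdsWithin r (Iio r))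
        (nhds ((2 : ℝ) ^ (-r) * (2 ^ r * θ))) := by
      apply Filter.Tendsto.mono_left _ nhdsWithin_le_nhds
      apply ContinuousAt.tendsto
      have : ContinuousAt (fun q : ℝ => (2 : ℝ) ^ (-q)) r := by
        apply ContinuousAt.rpow continuousAt_const continuousAt_neg
        left; norm_num
      exact this.mul continuousAt_const
    have hval : (2 : ℝ) ^ (-r) * (2 ^ r * θ) = θ := by
      rw [← mul_assoc, ← Real.rpow_add (by norm_num), neg_add_cancel, Real.rpow_zero, one_mul]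
    rw [hval] at hcont
    have e1 := hcont.eventually (gt_mem_nhds hθ1)
    have e2 : ∀ᶠ q in nhdsWithin r (Iio r), q ∈ Ioo 1 r := Ioo_mem_nhdsLT hr
    obtain ⟨q, hq, hq'⟩ := (e1.and e2).exists
    exact ⟨q, hq'.1, hq'.2, hq⟩
  refine ⟨q, hq1, hqr, (B_iff q U).2 ?_⟩
  have hq0 : 0 ≤ q := by linarith
  set K : ℝ := 2 ^ r * θ with hK
  have hK0 : 0 < K := by positivity
  set s : ℝ := (2 : ℝ) ^ (-q) * K with hs
  have hs0 : 0 ≤ s := by positivity
  have hP2 : ∀ c h : ℝ, 0 < h → P r U c (2 * h) ≤ ENNReal.ofReal K * P r U c h :=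
    fun c h hh => P_two hr0 hU hC1 hC hh
  have hsum : ∑' k : ℕ, ENNReal.ofReal s ^ k = ENNReal.ofReal (1 - s)⁻¹ := by
    rw [ENNReal.tsum_geometric, ENNReal.ofReal_inv_of_pos (by linarith),
      ENNReal.ofReal_sub _ hs0, ENNReal.ofReal_one]
  refine ⟨Real.toNNReal (2 ^ (q + 1) * (1 - s)⁻¹) * C, fun c h hh => ?_⟩
  have hs1 : 0 < (1 - s)⁻¹ := inv_pos.2 (by linarith)
  calc P q U c h
      ≤ ∫⁻ x, ∑' k : ℕ, ENNReal.ofReal (2 ^ (q + 1)) * (ENNReal.ofReal ((2 : ℝ) ^ (-q)) ^ k *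
          (ENNReal.ofReal (kr r (2 ^ k * h) |x - c|) * ENNReal.ofReal (U x))) := by
        apply lintegral_mono
        intro x
        obtain ⟨k, hk⟩ := kr_scale (q := q) (r := r) (h := h) (d := |x - c|) hq0 hr0.le hh
          (abs_nonneg _)
        refine le_trans ?_ (ENNReal.le_tsum k)
        rw [← ENNReal.ofReal_pow (by positivity), ← mul_assoc, ← mul_assoc,
          ← ENNReal.ofReal_mul (by positivity), ← ENNReal.ofReal_mul (by positivity)]
        refine mul_le_mul_left ?_ _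
        apply ENNReal.ofReal_le_ofReal
        rw [mul_assoc]
        exact hk
    _ = ∑' k : ℕ, ENNReal.ofReal (2 ^ (q + 1)) * (ENNReal.ofReal ((2 : ℝ) ^ (-q)) ^ k *
          P r U c (2 ^ k * h)) := by
        rw [lintegral_tsum]
        · congr 1
          ext k
          rw [lintegral_const_mul' _ _ ENNReal.ofReal_ne_top,
            lintegral_const_mul' _ _ (ENNReal.pow_ne_top ENNReal.ofReal_ne_top)]
          rfl
        · intro k
          exact (((meas_kr r _ c).aemeasurable.mul (aem_ofReal hU)).const_mul _).const_mul _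
    _ ≤ ∑' k : ℕ, ENNReal.ofReal (2 ^ (q + 1)) * (ENNReal.ofReal ((2 : ℝ) ^ (-q)) ^ k *
          (ENNReal.ofReal K ^ k * P r U c h)) := by
        refine ENNReal.tsum_le_tsum fun k => ?_
        gcongr
        exact P_pow hP2 hh k
    _ = ENNReal.ofReal (2 ^ (q + 1)) * P r U c h * ∑' k : ℕ, ENNReal.ofReal s ^ k := by
        rw [← ENNReal.tsum_mul_left]
        congr 1
        ext k
        have e : ENNReal.ofReal s = ENNReal.ofReal ((2 : ℝ) ^ (-q)) * ENNReal.ofReal K :=
          ENNReal.ofReal_mul (by positivity)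
        rw [e, mul_pow]
        ring
    _ = ENNReal.ofReal (2 ^ (q + 1) * (1 - s)⁻¹) * P r U c h := by
        rw [hsum, ENNReal.ofReal_mul (by positivity)]
        ring
    _ ≤ ENNReal.ofReal (2 ^ (q + 1) * (1 - s)⁻¹) * (C * m U c h) := by
        gcongr
        exact hC c h hh
    _ = _ := by
        rw [ENNReal.coe_mul, mul_assoc]
        rfl

lemma B_mono {q r : ℝ} (hq : 0 ≤ q) (hqr : q ≤ r) {U : ℝ → ℝ} (hB : B q U) : B r U := by
  obtain ⟨C, hC⟩ := (B_iff q U).1 hB
  refine (B_iff r U).2 ⟨2 * C, fun c h hh => ?_⟩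
  calc P r U c h ≤ 2 * P q U c h := by
        unfold P
        rw [← lintegral_const_mul' _ _ (by norm_num)]
        apply lintegral_mono
        intro x
        have := kr_le_of_le hq hqr hh (abs_nonneg (x - c))
        simp only
        rw [← mul_assoc]
        refine mul_le_mul_left ?_ _
        have e : (2 : ℝ≥0∞) = ENNReal.ofReal 2 := by norm_num
        rw [e, ← ENNReal.ofReal_mul (by norm_num)]
        exact ENNReal.ofReal_le_ofReal this
    _ ≤ 2 * (C * m U c h) := by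
        gcongr
        exact hC c h hh
    _ = _ := by
        rw [ENNReal.coe_mul]
        push_cast
        ring

/-- **The gap closes.** Let `1 < λ ≤ 2` and `2/λ < p < 2`.  A weight `U` satisfies the necessary
condition `U ∈ A_p ∩ B_{λp/2}` if and only if it satisfies the condition
`U ∈ A_p ∩ B_q` for some `q < min(λp/2, λ)`, which is sufficient by the theorem of
Stromberg and Torchinsky. -/
theorem result (lam p : ℝ) (h1 : 1 < lam) (_h2 : lam ≤ 2) (hp1 : 2 / lam < p) (hp2 : p < 2)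
    (U : ℝ → ℝ) (_hU0 : ∀ x, 0 ≤ U x) (hU : LocallyIntegrable U volume) :
    (A p U ∧ B (lam * p / 2) U) ↔
      (A p U ∧ ∃ q, 1 < q ∧ q < min (lam * p / 2) lam ∧ B q U) := by
  have hr : 1 < lam * p / 2 := by
    rw [div_lt_iff₀ (by linarith)] at hp1
    linarith
  have hmin : min (lam * p / 2) lam = lam * p / 2 := min_eq_left (by nlinarith)
  rw [hmin]
  constructor
  · rintro ⟨hA, hB⟩
    exact ⟨hA, improve hr hU hB⟩
  · rintro ⟨hA, q, hq1, hq2, hB⟩
    exact ⟨hA, B_mono (by linarith) hq2.le hB⟩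

end Pool.Agent.K3h74.GL.Gap
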