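import Pool.Agent.K3h74.GL.Stm
import Pool.Agent.K3h74.GL.Gap

/-!
# Assembly of the characterization
-/

set_option autoImplicit false

open MeasureTheory Set
open scoped ENNReal NNReal

namespace Pool.Agent.K3h74.GL

open Pool.Agent.K3h74.GL.Gap (A B J)

lemma J_eq_I (z y : ℝ) : J z (2 * y) = I z y := by
  unfold J I
  congr 1 <;> ring

lemma measurableSet_I (z y : ℝ) : MeasurableSet (I z y) := measurableSet_Icc

lemma volume_I (z y : ℝ) : volume (I z y) = ENNReal.ofReal (2 * y) := by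
  unfold I
  rw [Real.volume_Icc]
  congr 1
  ring

lemma loc_ofReal {U : ℝ → ℝ} (hU : LocallyIntegrable U volume) (z y : ℝ) :
    ∫⁻ x in I z y, ENNReal.ofReal (U x) ≠ ∞ := by
  have h1 : IntegrableOn U (I z y) volume := hU.integrableOn_isCompact isCompact_Icc
  have h2 := h1.2
  refine ne_top_of_le_ne_top h2.ne (lintegral_mono fun x => ?_)
  exact Real.ofReal_le_enorm (U x)

/-- `A_p` in terms of centres and radii. -/
lemma A_iff {p : ℝ} (hp : 1 < p) (U : ℝ → ℝ) : A p U ↔ ∃ C : ℝ≥0, ∀ z y : ℝ, 0 < y →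
    (∫⁻ x in I z y, ENNReal.ofReal (U x)) *
      (∫⁻ x in I z y, ENNReal.ofReal (U x) ^ (-(1 / (p - 1)))) ^ (p - 1) ≤
        C * ENNReal.ofReal y ^ p := by
  have key : ∀ (y : ℝ), 0 < y → ∀ a b : ℝ≥0∞,
      (a / ENNReal.ofReal (2 * y)) * (b / ENNReal.ofReal (2 * y)) ^ (p - 1) =
        a * b ^ (p - 1) / ENNReal.ofReal (2 * y) ^ p := by
    intro y hy a b
    have h0 : ENNReal.ofReal (2 * y) ≠ 0 := by
      rw [Ne, ENNReal.ofReal_eq_zero]; linarith
    have h1 : ENNReal.ofReal (2 * y) ≠ ∞ := ENNReal.ofReal_ne_top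
    have h2 : ENNReal.ofReal (2 * y) ^ p =
        ENNReal.ofReal (2 * y) * ENNReal.ofReal (2 * y) ^ (p - 1) := by
      have := ENNReal.rpow_add 1 (p - 1) h0 h1
      rw [ENNReal.rpow_one] at this
      rw [← this]
      congr 1
      ring
    rw [ENNReal.div_rpow_of_nonneg _ _ (by linarith), h2, div_eq_mul_inv, div_eq_mul_inv,
      div_eq_mul_inv, ENNReal.mul_inv (Or.inl h0) (Or.inl h1)]
    ring
  have hpow : ∀ y : ℝ, 0 < y → ENNReal.ofReal (2 * y) ^ p =
      ENNReal.ofReal (2 ^ p) * ENNReal.ofReal y ^ p := by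
    intro y hy
    rw [ENNReal.ofReal_mul (by norm_num), ENNReal.mul_rpow_of_nonneg _ _ (by linarith),
      ENNReal.ofReal_rpow_of_pos (x := 2) (by norm_num)]
  constructor
  · rintro ⟨C, hC⟩
    refine ⟨C * Real.toNNReal (2 ^ p), fun z y hy => ?_⟩
    have h := hC z (2 * y) (by linarith)
    rw [J_eq_I, key y hy] at h
    have h0 : ENNReal.ofReal (2 * y) ^ p ≠ 0 := by
      rw [Ne, ENNReal.rpow_eq_zero_iff]
      push Not
      refine ⟨fun h => ?_, fun h => absurd h ENNReal.ofReal_ne_top⟩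
      rw [ENNReal.ofReal_eq_zero] at h
      linarith
    have h1 : ENNReal.ofReal (2 * y) ^ p ≠ ∞ :=
      ENNReal.rpow_ne_top_of_nonneg (by linarith) ENNReal.ofReal_ne_top
    rw [ENNReal.div_le_iff h0 h1, hpow y hy] at h
    rw [ENNReal.coe_mul, mul_assoc]
    exact h
  · rintro ⟨C, hC⟩
    refine ⟨C, fun c h hh => ?_⟩
    obtain ⟨y, rfl⟩ : ∃ y, h = 2 * y := ⟨h / 2, by ring⟩
    have hy : 0 < y := by linarith
    rw [J_eq_I, key y hy]
    have h0 : ENNReal.ofReal (2 * y) ^ p ≠ 0 := by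
      rw [Ne, ENNReal.rpow_eq_zero_iff]
      push Not
      refine ⟨fun h => ?_, fun h => absurd h ENNReal.ofReal_ne_top⟩
      rw [ENNReal.ofReal_eq_zero] at h
      linarith
    have h1 : ENNReal.ofReal (2 * y) ^ p ≠ ∞ :=
      ENNReal.rpow_ne_top_of_nonneg (by linarith) ENNReal.ofReal_ne_top
    rw [ENNReal.div_le_iff h0 h1, hpow y hy]
    refine (hC c y hy).trans ?_
    rw [← mul_assoc]
    refine mul_le_mul_left ?_ _
    have h2 : (1 : ℝ≥0∞) ≤ ENNReal.ofReal (2 ^ p) := by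
      rw [← ENNReal.ofReal_one]
      exact ENNReal.ofReal_le_ofReal (Real.one_le_rpow (by norm_num) (by linarith))
    calc (C : ℝ≥0∞) = C * 1 := (mul_one _).symm
      _ ≤ C * ENNReal.ofReal (2 ^ p) := by gcongr

/-- a weight in `A_p` is zero almost everywhere or positive almost everywhere -/
lemma zero_or_pos {p : ℝ} (hp : 1 < p) {U : ℝ → ℝ} (hU : LocallyIntegrable U volume)
    (hA : A p U) (hne : ¬ (∀ᵐ x, U x ≤ 0)) : ∀ᵐ x, 0 < U x := by
  obtain ⟨C, hC⟩ := (A_iff hp U).1 hA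
  have hUm : AEMeasurable (fun x => ENNReal.ofReal (U x)) volume :=
    hU.aestronglyMeasurable.aemeasurable.ennreal_ofReal
  by_contra hcon
  apply hne
  -- on large intervals the second factor is infinite
  have hN : ∃ N : ℕ, ∀ n : ℕ, N ≤ n →
      ∫⁻ x in I 0 n, ENNReal.ofReal (U x) ^ (-(1 / (p - 1))) = ∞ := by
    by_contra hN
    push Not at hN
    apply hcon
    have h1 : ∀ N : ℕ, ∀ᵐ x ∂(volume.restrict (I 0 N)), 0 < U x := by
      intro N
      obtain ⟨n, hn, hfin⟩ := hN N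
      have h2 := ae_lt_top' (μ := volume.restrict (I 0 n)) ((hUm.restrict).pow_const _) hfin
      have h3 : ∀ᵐ x ∂(volume.restrict (I 0 (n : ℝ))), 0 < U x := by
        filter_upwards [h2] with x hx
        by_contra hx0
        push Not at hx0
        rw [ENNReal.ofReal_eq_zero.2 hx0, ENNReal.zero_rpow_of_neg] at hx
        · exact absurd hx (lt_irrefl _)
        · rw [neg_lt_zero]
          have : 0 < p - 1 := by linarith
          positivity
      refine ae_mono (Measure.restrict_mono ?_ le_rfl) h3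
      unfold I
      apply Icc_subset_Icc <;> simp only [zero_sub, zero_add, neg_le_neg_iff] <;>
        exact_mod_cast hn
    have h4 : ∀ᵐ x ∂(volume.restrict (⋃ N : ℕ, I 0 (N : ℝ))), 0 < U x := by
      rw [ae_restrict_iUnion_iff]
      exact h1
    have h5 : (⋃ N : ℕ, I 0 (N : ℝ)) = univ := by
      rw [eq_univ_iff_forall]
      intro x
      rw [mem_iUnion]
      obtain ⟨N, hN⟩ := exists_nat_ge |x|
      refine ⟨N, ?_⟩
      unfold I
      rw [zero_sub, zero_add]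
      exact abs_le.1 hN
    rwa [h5, Measure.restrict_univ] at h4
  obtain ⟨N, hN⟩ := hN
  have h6 : ∀ n : ℕ, N + 1 ≤ n → ∀ᵐ x ∂(volume.restrict (I 0 (n : ℝ))), U x ≤ 0 := by
    intro n hn
    have hn0 : (0 : ℝ) < n := by
      have : 0 < n := by omega
      exact_mod_cast this
    have h7 := hC 0 n hn0
    rw [hN n (by omega), ENNReal.top_rpow_of_pos (by linarith)] at h7
    have h8 : (C : ℝ≥0∞) * ENNReal.ofReal n ^ p ≠ ∞ :=
      ENNReal.mul_ne_top ENNReal.coe_ne_top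
        (ENNReal.rpow_ne_top_of_nonneg (by linarith) ENNReal.ofReal_ne_top)
    have h9 : ∫⁻ x in I 0 (n : ℝ), ENNReal.ofReal (U x) = 0 := by
      by_contra h10
      rw [ENNReal.mul_top h10] at h7
      exact h8 (top_le_iff.1 h7)
    rw [lintegral_eq_zero_iff' hUm.restrict] at h9
    filter_upwards [h9] with x hx
    exact ENNReal.ofReal_eq_zero.1 hx
  have h11 : ∀ᵐ x ∂(volume.restrict (⋃ n : ℕ, I 0 ((n + (N + 1) : ℕ) : ℝ))), U x ≤ 0 := by
    rw [ae_restrict_iUnion_iff]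
    intro n
    exact h6 _ (by omega)
  have h12 : (⋃ n : ℕ, I 0 ((n + (N + 1) : ℕ) : ℝ)) = univ := by
    rw [eq_univ_iff_forall]
    intro x
    rw [mem_iUnion]
    obtain ⟨M, hM⟩ := exists_nat_ge |x|
    refine ⟨M, ?_⟩
    unfold I
    rw [zero_sub, zero_add]
    apply abs_le.1
    push_cast
    have : (0 : ℝ) ≤ N := Nat.cast_nonneg N
    linarith
  rwa [h12, Measure.restrict_univ] at h11

/-- the growth of the measure of intervals from `B_q` -/
lemma growth {q : ℝ} (hq : 1 < q) {U : ℝ → ℝ} (hU0 : ∀ x, 0 ≤ U x) (hB : B q U) :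
    ∃ D : ℝ≥0∞, D ≠ ∞ ∧ ∀ z y t : ℝ, 0 < y → 1 ≤ t →
      ∫⁻ x in I z (t * y), ENNReal.ofReal (U x) ≤
        D * ENNReal.ofReal (t ^ q) * ∫⁻ x in I z y, ENNReal.ofReal (U x) := by
  obtain ⟨C, hC⟩ := hB
  refine ⟨2 * C, ENNReal.mul_ne_top (by norm_num) ENNReal.coe_ne_top, fun z y t hy ht => ?_⟩
  have h := hC z (2 * y) (by linarith)
  rw [J_eq_I] at h
  have ht0 : 0 < t := by linarith
  have hh : 0 < 2 * y := by linarith
  have hhq : 0 < (2 * y) ^ q := Real.rpow_pos_of_pos hh q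
  have htq : 1 ≤ t ^ q := Real.one_le_rpow ht (by linarith)
  -- lower bound of the kernel
  have h1 : ENNReal.ofReal (1 / (2 * y * (2 * t ^ q))) * ∫⁻ x in I z (t * y),
      ENNReal.ofReal (U x) ≤
      ∫⁻ x, ENNReal.ofReal ((2 * y) ^ (q - 1) * U x / ((2 * y) ^ q + |x - z| ^ q)) := by
    rw [← lintegral_const_mul' _ _ ENNReal.ofReal_ne_top]
    refine le_trans ?_ (setLIntegral_le_lintegral (I z (t * y)) _)
    apply setLIntegral_mono' (measurableSet_I _ _)
    intro x hx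
    rw [← ENNReal.ofReal_mul (by positivity)]
    apply ENNReal.ofReal_le_ofReal
    have hx1 : |x - z| ≤ t * y := by
      unfold I at hx
      rw [abs_le]
      constructor <;> linarith [hx.1, hx.2]
    have hx2 : |x - z| ^ q ≤ t ^ q * (2 * y) ^ q := by
      rw [← Real.mul_rpow ht0.le hh.le]
      apply Real.rpow_le_rpow (abs_nonneg _) _ (by linarith)
      nlinarith
    have hx3 : 0 ≤ |x - z| ^ q := Real.rpow_nonneg (abs_nonneg _) q
    have e : (2 * y) ^ (q - 1) = (2 * y) ^ q / (2 * y) := by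
      rw [Real.rpow_sub_one hh.ne']
    rw [e, div_mul_eq_mul_div, div_mul_eq_mul_div, one_mul, div_div,
      div_le_div_iff₀ (by positivity) (by positivity)]
    have h2 : (2 * y) ^ q + |x - z| ^ q ≤ 2 * t ^ q * (2 * y) ^ q := by nlinarith
    calc U x * (2 * y * ((2 * y) ^ q + |x - z| ^ q))
        ≤ U x * (2 * y * (2 * t ^ q * (2 * y) ^ q)) := by
          apply mul_le_mul_of_nonneg_left _ (hU0 x)
          apply mul_le_mul_of_nonneg_left h2 hh.le
      _ = (2 * y) ^ q * U x * (2 * y * (2 * t ^ q)) := by ring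
  have h2 := h1.trans h
  have hpos : 0 < 2 * y * (2 * t ^ q) := by positivity
  have e1 : ENNReal.ofReal (1 / (2 * y * (2 * t ^ q))) = (ENNReal.ofReal (2 * y * (2 * t ^ q)))⁻¹ := by
    rw [one_div, ENNReal.ofReal_inv_of_pos hpos]
  rw [e1] at h2
  have h0 : ENNReal.ofReal (2 * y * (2 * t ^ q)) ≠ 0 := by
    rw [Ne, ENNReal.ofReal_eq_zero]; linarith
  have h3 : ∫⁻ x in I z (t * y), ENNReal.ofReal (U x) ≤
      ENNReal.ofReal (2 * y * (2 * t ^ q)) *
        ((C : ℝ≥0∞) / ENNReal.ofReal (2 * y) * ∫⁻ x in I z y, ENNReal.ofReal (U x)) := by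
    calc ∫⁻ x in I z (t * y), ENNReal.ofReal (U x)
        = ENNReal.ofReal (2 * y * (2 * t ^ q)) * ((ENNReal.ofReal (2 * y * (2 * t ^ q)))⁻¹ *
          ∫⁻ x in I z (t * y), ENNReal.ofReal (U x)) := by
          rw [← mul_assoc, ENNReal.mul_inv_cancel h0 ENNReal.ofReal_ne_top, one_mul]
      _ ≤ _ := by gcongr
  refine h3.trans (le_of_eq ?_)
  have h4 : ENNReal.ofReal (2 * y) ≠ 0 := by
    rw [Ne, ENNReal.ofReal_eq_zero]; linarith
  have e2 : ENNReal.ofReal (2 * y * (2 * t ^ q)) =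
      ENNReal.ofReal (2 * y) * (2 * ENNReal.ofReal (t ^ q)) := by
    rw [ENNReal.ofReal_mul hh.le, ENNReal.ofReal_mul (p := 2) (by norm_num)]
    norm_num
  rw [e2, div_eq_mul_inv]
  calc ENNReal.ofReal (2 * y) * (2 * ENNReal.ofReal (t ^ q)) *
        ((C : ℝ≥0∞) * (ENNReal.ofReal (2 * y))⁻¹ * ∫⁻ x in I z y, ENNReal.ofReal (U x))
      = (ENNReal.ofReal (2 * y) * (ENNReal.ofReal (2 * y))⁻¹) * (2 *
        ENNReal.ofReal (t ^ q) * (C * ∫⁻ x in I z y, ENNReal.ofReal (U x))) := by ring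
    _ = _ := by
      rw [ENNReal.mul_inv_cancel h4 ENNReal.ofReal_ne_top, one_mul]
      ring

end Pool.Agent.K3h74.GL
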