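import Pool.Agent.K3h74.GL.Stm

set_option autoImplicit false

open MeasureTheory Set
open scoped ENNReal NNReal

namespace Pool.Agent.K3h74.GL

lemma ker_point {l : ℝ} (hl : 0 < l) (d y : ℝ) (hd : 0 ≤ d) (hy : 0 < y) :
    ∃ k : ℕ, d < 2 ^ k * y ∧ (y / (d + y)) ^ l ≤ 2 ^ l * (2 ^ (-l)) ^ k := by
  have hex : ∃ k : ℕ, d < 2 ^ k * y := by
    obtain ⟨k, hk⟩ := pow_unbounded_of_one_lt (d / y) (by norm_num : (1 : ℝ) < 2)
    exact ⟨k, by rwa [div_lt_iff₀ hy] at hk⟩
  classical
  have hk := Nat.find_spec hex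
  refine ⟨Nat.find hex, hk, ?_⟩
  rcases Nat.eq_zero_or_pos (Nat.find hex) with h0 | h0
  · rw [h0, pow_zero, mul_one]
    have h1 : y / (d + y) ≤ 1 := by
      rw [div_le_one (by positivity)]
      linarith
    calc (y / (d + y)) ^ l ≤ 1 ^ l := Real.rpow_le_rpow (by positivity) h1 hl.le
      _ = 1 := Real.one_rpow l
      _ ≤ 2 ^ l := Real.one_le_rpow (by norm_num) hl.le
  · obtain ⟨m, hm⟩ : ∃ m, Nat.find hex = m + 1 := ⟨Nat.find hex - 1, by omega⟩
    have hmin := Nat.find_min hex (m := m) (by omega)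
    push Not at hmin
    rw [hm]
    have h2m : (0 : ℝ) < 2 ^ m := by positivity
    have h1 : y / (d + y) ≤ 2 * (1 / 2) ^ (m + 1) := by
      have e : (2 : ℝ) * (1 / 2) ^ (m + 1) = 1 / 2 ^ m := by
        rw [pow_succ, one_div_pow]; ring
      rw [e, div_le_div_iff₀ (by positivity) h2m]
      nlinarith
    calc (y / (d + y)) ^ l ≤ (2 * (1 / 2) ^ (m + 1)) ^ l :=
          Real.rpow_le_rpow (by positivity) h1 hl.le
      _ = 2 ^ l * (2 ^ (-l)) ^ (m + 1) := by
          rw [Real.mul_rpow (by norm_num) (by positivity)]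
          congr 1
          rw [← Real.rpow_natCast, ← Real.rpow_natCast, ← Real.rpow_mul (by norm_num),
            ← Real.rpow_mul (by norm_num), one_div, Real.inv_rpow (by norm_num),
            ← Real.rpow_neg (by norm_num)]
          congr 1
          ring

theorem t_KER : S_KER := by
  intro l hl G hG x
  have hGz : ∀ z : ℝ, Measurable (G z) := fun z => hG.comp measurable_prodMk_left
  set c : ℕ → ℝ≥0∞ := fun k => ENNReal.ofReal (2 ^ l) * ENNReal.ofReal ((2 ^ (-l)) ^ k) with hc
  have hcore : ∀ k : ℕ, Measurable (fun q : ℝ × ℝ => if |x - q.1| < 2 ^ k * q.2 then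
      G q.1 q.2 else 0) := by
    intro k
    refine Measurable.ite ?_ hG measurable_const
    apply measurableSet_lt
    · exact (measurable_const.sub measurable_fst).abs
    · exact measurable_const.mul measurable_snd
  calc ∫⁻ z, ∫⁻ y in Ioi (0 : ℝ), ENNReal.ofReal ((y / (|x - z| + y)) ^ l) * G z y
      ≤ ∫⁻ z, ∫⁻ y in Ioi (0 : ℝ), ∑' k : ℕ, c k * (if |x - z| < 2 ^ k * y then G z y else 0) := by
        apply lintegral_mono
        intro z
        apply setLIntegral_mono' measurableSet_Ioi
        intro y hy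
        have hy0 : 0 < y := hy
        obtain ⟨k, hk1, hk2⟩ := ker_point hl |x - z| y (abs_nonneg _) hy0
        refine le_trans ?_ (ENNReal.le_tsum k)
        rw [if_pos hk1, hc]
        simp only
        rw [← ENNReal.ofReal_mul (by positivity)]
        gcongr
    _ = ∫⁻ z, ∑' k : ℕ, c k * ∫⁻ y in Ioi (0 : ℝ), (if |x - z| < 2 ^ k * y then G z y else 0) := by
        refine lintegral_congr fun z => ?_
        have hm : ∀ k : ℕ, Measurable (fun y : ℝ => if |x - z| < 2 ^ k * y then G z y else 0) :=
          fun k => (hcore k).comp (measurable_prodMk_left (x := z))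
        rw [lintegral_tsum (fun k => ((hm k).const_mul _).aemeasurable)]
        congr 1
        ext k
        rw [lintegral_const_mul _ (hm k)]
    _ = ∑' k : ℕ, c k * AA (2 ^ k) G x := by
        have hm : ∀ k : ℕ, Measurable (fun z : ℝ => ∫⁻ y in Ioi (0 : ℝ),
            (if |x - z| < 2 ^ k * y then G z y else 0)) := fun k => (hcore k).lintegral_prod_right'
        rw [lintegral_tsum (fun k => ((hm k).const_mul _).aemeasurable)]
        congr 1
        ext k
        rw [lintegral_const_mul _ (hm k)]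
        rfl
    _ = _ := by
        rw [← ENNReal.tsum_mul_left]
        congr 1
        ext k
        rw [hc]
        ring

end Pool.Agent.K3h74.GL
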