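import Pool.Agent.K3h74.GL.Stm

set_option autoImplicit false

open MeasureTheory Set
open scoped ENNReal NNReal

namespace Pool.Agent.K3h74.GL

lemma lc_point {s : ℝ} (hs : 0 < s) (a : ℝ≥0∞) :
    a ^ s = ENNReal.ofReal s * ∫⁻ t in Ioi (0 : ℝ), ENNReal.ofReal (t ^ (s - 1)) *
      (if ENNReal.ofReal t < a then 1 else 0) := by
  have key : ∀ b : ℝ, 0 ≤ b → ENNReal.ofReal (b ^ s) =
      ENNReal.ofReal s * ∫⁻ t in Ioc 0 b, ENNReal.ofReal (t ^ (s - 1)) := by
    intro b hb
    have h1 : IntegrableOn (fun t : ℝ => t ^ (s - 1)) (Ioc 0 b) := by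
      rw [← intervalIntegrable_iff_integrableOn_Ioc_of_le hb]
      exact intervalIntegral.intervalIntegrable_rpow' (by linarith)
    rw [← ofReal_integral_eq_lintegral_ofReal h1]
    · rw [← ENNReal.ofReal_mul hs.le, ← intervalIntegral.integral_of_le hb,
        integral_rpow (Or.inl (by linarith))]
      congr 1
      have e : s - 1 + 1 = s := by ring
      rw [e, Real.zero_rpow hs.ne', sub_zero]
      field_simp
    · filter_upwards [ae_restrict_mem measurableSet_Ioc] with t ht
      exact Real.rpow_nonneg ht.1.le _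
  by_cases ha : a = ∞
  · subst ha
    rw [ENNReal.top_rpow_of_pos hs]
    symm
    rw [eq_top_iff]
    apply ENNReal.le_of_forall_nnreal_lt
    intro r _
    obtain ⟨b, hb0, hb⟩ : ∃ b : ℝ, 0 ≤ b ∧ (r : ℝ) ≤ b ^ s := by
      refine ⟨(r : ℝ) ^ (1 / s), by positivity, ?_⟩
      rw [← Real.rpow_mul (by positivity), one_div_mul_cancel hs.ne', Real.rpow_one]
    calc (r : ℝ≥0∞) = ENNReal.ofReal r := by rw [ENNReal.ofReal_coe_nnreal]
      _ ≤ ENNReal.ofReal (b ^ s) := ENNReal.ofReal_le_ofReal hb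
      _ = ENNReal.ofReal s * ∫⁻ t in Ioc 0 b, ENNReal.ofReal (t ^ (s - 1)) := key b hb0
      _ ≤ _ := by
        refine mul_le_mul_right ?_ _
        have hsub : Ioc (0 : ℝ) b ⊆ Ioi 0 := fun t ht => ht.1
        refine (lintegral_mono_set hsub).trans (lintegral_mono fun t => ?_)
        rw [if_pos ENNReal.ofReal_lt_top, mul_one]
  · obtain ⟨b, rfl⟩ : ∃ b : ℝ≥0, a = b := ⟨a.toNNReal, (ENNReal.coe_toNNReal ha).symm⟩
    have h1 : (b : ℝ≥0∞) ^ s = ENNReal.ofReal ((b : ℝ) ^ s) := by
      have h0 : ENNReal.ofReal (b : ℝ) = (b : ℝ≥0∞) := ENNReal.ofReal_coe_nnreal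
      rw [← h0, ENNReal.ofReal_rpow_of_nonneg b.coe_nonneg hs.le]
    rw [h1, key b b.2]
    congr 1
    have h2 : ∫⁻ t in Ioi (0 : ℝ), ENNReal.ofReal (t ^ (s - 1)) *
        (if ENNReal.ofReal t < (b : ℝ≥0∞) then 1 else 0) =
        ∫⁻ t in Ioi (0 : ℝ), (Iio (b : ℝ)).indicator (fun t => ENNReal.ofReal (t ^ (s - 1))) t := by
      refine setLIntegral_congr_fun measurableSet_Ioi fun t ht => ?_
      have ht0 : 0 < t := ht
      have h3 : ENNReal.ofReal t < (b : ℝ≥0∞) ↔ t < b := by
        rw [← ENNReal.ofReal_coe_nnreal, ENNReal.ofReal_lt_ofReal_iff_of_nonneg ht0.le]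
      by_cases h4 : t < b
      · rw [if_pos (h3.2 h4), indicator_of_mem (show t ∈ Iio (b : ℝ) from h4), mul_one]
      · rw [if_neg (fun h => h4 (h3.1 h)), indicator_of_notMem (show t ∉ Iio (b : ℝ) from h4),
          mul_zero]
    rw [h2, setLIntegral_indicator measurableSet_Iio]
    have h5 : (Iio (b : ℝ) ∩ Ioi 0) = Ioo 0 (b : ℝ) := by
      ext t; simp [and_comm]
    rw [h5, restrict_Ioo_eq_restrict_Ioc]

theorem t_LC : S_LC := by
  intro μ _ s hs h hh
  calc ∫⁻ x, h x ^ s ∂μ = ∫⁻ x, (ENNReal.ofReal s * ∫⁻ t in Ioi (0 : ℝ),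
        ENNReal.ofReal (t ^ (s - 1)) * (if ENNReal.ofReal t < h x then 1 else 0)) ∂μ :=
        lintegral_congr fun x => lc_point hs _
    _ = ENNReal.ofReal s * ∫⁻ x, (∫⁻ t in Ioi (0 : ℝ),
        ENNReal.ofReal (t ^ (s - 1)) * (if ENNReal.ofReal t < h x then 1 else 0)) ∂μ :=
        lintegral_const_mul' _ _ ENNReal.ofReal_ne_top
    _ = ENNReal.ofReal s * ∫⁻ t in Ioi (0 : ℝ), (∫⁻ x,
        ENNReal.ofReal (t ^ (s - 1)) * (if ENNReal.ofReal t < h x then 1 else 0) ∂μ) := by
        congr 1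
        apply lintegral_lintegral_swap
        apply Measurable.aemeasurable
        apply Measurable.mul
        · exact (measurable_snd.pow_const _).ennreal_ofReal
        · refine Measurable.ite ?_ measurable_const measurable_const
          exact measurableSet_lt measurable_snd.ennreal_ofReal (hh.comp measurable_fst)
    _ = _ := by
        congr 1
        refine lintegral_congr fun t => ?_
        rw [lintegral_const_mul' _ _ ENNReal.ofReal_ne_top]
        congr 1
        have hm : MeasurableSet {x | ENNReal.ofReal t < h x} := measurableSet_lt measurable_const hh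
        rw [← lintegral_indicator_one hm]
        refine lintegral_congr fun x => ?_
        by_cases hx : ENNReal.ofReal t < h x
        · rw [if_pos hx, indicator_of_mem (show x ∈ {x | ENNReal.ofReal t < h x} from hx)]
          rfl
        · rw [if_neg hx, indicator_of_notMem (show x ∉ {x | ENNReal.ofReal t < h x} from hx)]

end Pool.Agent.K3h74.GL
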