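import Pool.Agent.K3h74.GL.Suf

/-!
# The characterization, from the steps
-/

set_option autoImplicit false

open MeasureTheory Set
open scoped ENNReal NNReal

namespace Pool.Agent.K3h74.GL

open Pool.Agent.K3h74.GL.Gap (A B J)

/-- `B_r` from the estimate with the other kernel -/
lemma B_of_kernel {r : ℝ} (hr : 0 < r) {U : ℝ → ℝ} {C : ℝ≥0}
    (hU0 : ∀ x, 0 ≤ U x)
    (h : ∀ z y : ℝ, 0 < y → ∫⁻ x, ENNReal.ofReal ((y / (|x - z| + y)) ^ r * U x) ≤
      C * ∫⁻ x in I z y, ENNReal.ofReal (U x)) : B r U := by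
  rw [Gap.B_iff]
  refine ⟨Real.toNNReal (4 ^ r) * C, fun c h' hh => ?_⟩
  obtain ⟨y, rfl⟩ : ∃ y, h' = 2 * y := ⟨h' / 2, by ring⟩
  have hy : 0 < y := by linarith
  have hmI : Gap.m U c (2 * y) = ∫⁻ x in I c y, ENNReal.ofReal (U x) := by
    unfold Gap.m
    rw [J_eq_I]
  rw [hmI]
  have hpt : ∀ d : ℝ, 0 ≤ d → Gap.kr r (2 * y) d ≤ 4 ^ r * (y / (d + y)) ^ r := by
    intro d hd
    unfold Gap.kr
    have h1 : 0 < (2 * y) ^ r := Real.rpow_pos_of_pos (by linarith) r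
    have h2 : 0 ≤ d ^ r := Real.rpow_nonneg hd r
    have h3 : (d + y) ^ r ≤ 2 ^ r * ((2 * y) ^ r + d ^ r) := by
      rcases le_total d y with hdy | hdy
      · calc (d + y) ^ r ≤ (2 * (2 * y)) ^ r :=
              Real.rpow_le_rpow (by linarith) (by linarith) hr.le
          _ = 2 ^ r * (2 * y) ^ r := Real.mul_rpow (by norm_num) (by linarith)
          _ ≤ 2 ^ r * ((2 * y) ^ r + d ^ r) := by
              have : (0 : ℝ) < 2 ^ r := Real.rpow_pos_of_pos (by norm_num) r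
              nlinarith
      · calc (d + y) ^ r ≤ (2 * d) ^ r :=
              Real.rpow_le_rpow (by linarith) (by linarith) hr.le
          _ = 2 ^ r * d ^ r := Real.mul_rpow (by norm_num) hd
          _ ≤ 2 ^ r * ((2 * y) ^ r + d ^ r) := by
              have : (0 : ℝ) < 2 ^ r := Real.rpow_pos_of_pos (by norm_num) r
              nlinarith
    have h4 : 0 < (d + y) ^ r := Real.rpow_pos_of_pos (by linarith) r
    have h5 : (4 : ℝ) ^ r * (y / (d + y)) ^ r = 2 ^ r * (2 * y) ^ r / (d + y) ^ r := by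
      rw [Real.div_rpow hy.le (by linarith), Real.mul_rpow (by norm_num) hy.le,
        show (4 : ℝ) = 2 * 2 by norm_num, Real.mul_rpow (by norm_num) (by norm_num)]
      ring
    rw [h5, div_le_div_iff₀ (by positivity) h4]
    nlinarith
  unfold Gap.P
  calc ∫⁻ x, ENNReal.ofReal (Gap.kr r (2 * y) |x - c|) * ENNReal.ofReal (U x)
      ≤ ∫⁻ x, ENNReal.ofReal (4 ^ r) * ENNReal.ofReal ((y / (|x - c| + y)) ^ r * U x) := by
        apply lintegral_mono
        intro x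
        simp only
        have h6 : 0 ≤ (y / (|x - c| + y)) ^ r := by
          apply Real.rpow_nonneg; positivity
        have h7 : (0 : ℝ) ≤ 4 ^ r := by positivity
        rw [← ENNReal.ofReal_mul h7, ← ENNReal.ofReal_mul
          (Gap.kr_nonneg (by linarith) (abs_nonneg _))]
        apply ENNReal.ofReal_le_ofReal
        rw [← mul_assoc]
        exact mul_le_mul_of_nonneg_right (hpt _ (abs_nonneg _)) (hU0 x)
    _ = ENNReal.ofReal (4 ^ r) * ∫⁻ x, ENNReal.ofReal ((y / (|x - c| + y)) ^ r * U x) :=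
        lintegral_const_mul' _ _ ENNReal.ofReal_ne_top
    _ ≤ ENNReal.ofReal (4 ^ r) * (C * ∫⁻ x in I c y, ENNReal.ofReal (U x)) := by
        gcongr
        exact h c y hy
    _ = _ := by
        rw [ENNReal.coe_mul, mul_assoc]
        rfl

theorem main (hPOI : S_POI) (hAREA : S_AREA) (hAPER : S_APER) (hKER : S_KER) (hNEC : S_NEC)
    (l p : ℝ) (hl1 : 1 < l) (hl2 : l ≤ 2) (hp1 : 2 / l < p) (hp2 : p < 2) (U : ℝ → ℝ)
    (hU0 : ∀ x, 0 ≤ U x) (hU : LocallyIntegrable U volume) :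
    (Star l p U ↔ A p U ∧ B (l * p / 2) U) ∧
    (Star l p U ↔ A p U ∧ ∃ q, 1 < q ∧ q < l * p / 2 ∧ B q U) ∧
    (Star l p U → ¬ (∀ᵐ x, U x = 0) → ∀ f : ℝ → ℝ, Measurable f →
      ∫⁻ x, ENNReal.ofReal (|f x| ^ p * U x) ≠ ∞ → Integrable (fun t => f t / (1 + t ^ 2))) := by
  have hl0 : 0 < l := by linarith
  have hp : 1 < p := by
    have : 1 ≤ 2 / l := by
      rw [le_div_iff₀ hl0]; linarith
    linarith
  have hr : 1 < l * p / 2 := by
    rw [div_lt_iff₀ (by linarith)] at hp1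
    linarith
  have h1 : Star l p U → A p U ∧ B (l * p / 2) U := by
    intro hS
    obtain ⟨C, hC⟩ := hNEC l p hl1 hl2 hp hp2 U hU0 hU hS
    exact ⟨(A_iff hp U).2 ⟨C, fun z y hy => (hC z y hy).2⟩,
      B_of_kernel (by linarith) hU0 fun z y hy => (hC z y hy).1⟩
  have h2 : A p U ∧ B (l * p / 2) U → A p U ∧ ∃ q, 1 < q ∧ q < l * p / 2 ∧ B q U :=
    fun ⟨hA, hB⟩ => ⟨hA, Gap.improve hr hU hB⟩
  have h3 : (A p U ∧ ∃ q, 1 < q ∧ q < l * p / 2 ∧ B q U) → Star l p U ∧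
      (¬ (∀ᵐ x, U x = 0) → ∀ f : ℝ → ℝ, Measurable f →
      ∫⁻ x, ENNReal.ofReal (|f x| ^ p * U x) ≠ ∞ → Integrable (fun t => f t / (1 + t ^ 2))) := by
    rintro ⟨hA, q, hq1, hq2, hB⟩
    exact suff hPOI hAREA hAPER hKER l p hl1 hl2 hp1 hp2 U hU0 hU hA q hq1 hq2 hB
  refine ⟨⟨h1, fun h => (h3 (h2 h)).1⟩, ⟨fun h => h2 (h1 h), fun h => (h3 h).1⟩,
    fun h => (h3 (h2 (h1 h))).2⟩

end Pool.Agent.K3h74.GL
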