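import Mathlib

/-!
# The weighted `g_λ^*` inequality: definitions and statements of the steps

Weights are functions `w : ℝ → ℝ≥0∞` (everywhere positive and finite after a change on a null set).
-/

set_option autoImplicit false

open MeasureTheory Set
open scoped ENNReal NNReal

namespace Pool.Agent.K3h74.GL

/-- The closed interval with centre `z` and radius `y`. -/
def I (z y : ℝ) : Set ℝ := Icc (z - y) (z + y)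

/-- The Poisson integral of `f`. -/
noncomputable def P (f : ℝ → ℝ) (z y : ℝ) : ℝ :=
  (1 / Real.pi) * ∫ x, y * f (z - x) / (x ^ 2 + y ^ 2)

/-- The square of the length of the gradient of the Poisson integral. -/
noncomputable def gradSq (f : ℝ → ℝ) (z y : ℝ) : ℝ :=
  deriv (fun s => P f s y) z ^ 2 + deriv (fun s => P f z s) y ^ 2

/-- The function `g_λ^*`. -/
noncomputable def gstar (l : ℝ) (f : ℝ → ℝ) (x : ℝ) : ℝ≥0∞ :=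
  (∫⁻ z, ∫⁻ y in Ioi (0 : ℝ), ENNReal.ofReal ((y / (|x - z| + y)) ^ l * gradSq f z y)) ^
    (1 / 2 : ℝ)

/-- The square of the area function of aperture `a` of a function `G` on the half plane. -/
noncomputable def AA (a : ℝ) (G : ℝ → ℝ → ℝ≥0∞) (x : ℝ) : ℝ≥0∞ :=
  ∫⁻ z, ∫⁻ y in Ioi (0 : ℝ), if |x - z| < a * y then G z y else 0

/-- `w` is a weight in `A_r` with the constant `C`. -/
structure Wt (r : ℝ) (w : ℝ → ℝ≥0∞) (C : ℝ≥0∞) : Prop where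
  meas : Measurable w
  pos : ∀ x, w x ≠ 0
  fin : ∀ x, w x ≠ ∞
  loc : ∀ z y : ℝ, ∫⁻ x in I z y, w x ≠ ∞
  ar : ∀ z y : ℝ, 0 < y → (∫⁻ x in I z y, w x) *
    (∫⁻ x in I z y, w x ^ (-(1 / (r - 1)))) ^ (r - 1) ≤ C * ENNReal.ofReal y ^ r

/-- The maximal function. -/
noncomputable def Mx (f : ℝ → ℝ≥0∞) (x : ℝ) : ℝ≥0∞ :=
  ⨆ (z : ℝ) (y : ℝ) (_ : |x - z| < y), (∫⁻ t in I z y, f t) / ENNReal.ofReal (2 * y)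

/-- The maximal function with respect to the measure with density `w`. -/
noncomputable def Mw (w f : ℝ → ℝ≥0∞) (x : ℝ) : ℝ≥0∞ :=
  ⨆ (z : ℝ) (y : ℝ) (_ : |x - z| < y), (∫⁻ t in I z y, f t * w t) / (∫⁻ t in I z y, w t)

/-! ### Maximal functions -/

/-- **DBL**: weights in `A_r` are doubling. -/
def S_DBL : Prop := ∀ (r : ℝ) (C : ℝ≥0∞), 1 < r → C ≠ ∞ → ∃ D : ℝ≥0∞, D ≠ ∞ ∧
  ∀ w : ℝ → ℝ≥0∞, Wt r w C → ∀ z y : ℝ, 0 < y →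
    ∫⁻ x in I z (5 * y), w x ≤ D * ∫⁻ x in I z y, w x

/-- **DUAL**: the dual weight. -/
def S_DUAL : Prop := ∀ (r : ℝ) (C : ℝ≥0∞), 1 < r → C ≠ ∞ → ∀ w : ℝ → ℝ≥0∞, Wt r w C →
  Wt (r / (r - 1)) (fun x => w x ^ (-(1 / (r - 1)))) (C ^ (1 / (r - 1)))

/-- **LC**: layer cake formula. -/
def S_LC : Prop := ∀ (μ : Measure ℝ) [SigmaFinite μ] (s : ℝ), 0 < s → ∀ h : ℝ → ℝ≥0∞,
  Measurable h → ∫⁻ x, h x ^ s ∂μ =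
    ENNReal.ofReal s * ∫⁻ t in Ioi (0 : ℝ), ENNReal.ofReal (t ^ (s - 1)) *
      μ {x | ENNReal.ofReal t < h x}

/-- **MMX**: the maximal functions are measurable. -/
def S_MMX : Prop := (∀ f : ℝ → ℝ≥0∞, Measurable (Mx f)) ∧
  ∀ w f : ℝ → ℝ≥0∞, Measurable (Mw w f)

/-- **WEAK**: the weak type inequality. -/
def S_WEAK : Prop := ∀ (w : ℝ → ℝ≥0∞) (D : ℝ≥0∞), Measurable w → (∀ x, w x ≠ 0) →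
  (∀ z y : ℝ, ∫⁻ x in I z y, w x ≠ ∞) →
  (∀ z y : ℝ, 0 < y → ∫⁻ x in I z (5 * y), w x ≤ D * ∫⁻ x in I z y, w x) →
  ∀ f : ℝ → ℝ≥0∞, Measurable f → ∀ t : ℝ≥0∞, t ≠ 0 → t ≠ ∞ →
    ∫⁻ x in {x | t < Mw w f x}, w x ≤ D / t * ∫⁻ x, f x * w x

/-- **STR**: the strong type inequality. -/
def S_STR : Prop := ∀ (r : ℝ) (D : ℝ≥0∞), 1 < r → D ≠ ∞ → ∃ K : ℝ≥0∞, K ≠ ∞ ∧
  ∀ w : ℝ → ℝ≥0∞, Measurable w → (∀ x, w x ≠ 0) → (∀ x, w x ≠ ∞) →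
  (∀ z y : ℝ, ∫⁻ x in I z y, w x ≠ ∞) →
  (∀ z y : ℝ, 0 < y → ∫⁻ x in I z (5 * y), w x ≤ D * ∫⁻ x in I z y, w x) →
  ∀ f : ℝ → ℝ≥0∞, Measurable f → ∫⁻ x, Mw w f x ^ r * w x ≤ K * ∫⁻ x, f x ^ r * w x

/-- **MAX**: Muckenhoupt's theorem. -/
def S_MAX : Prop := ∀ (r : ℝ) (C : ℝ≥0∞), 1 < r → C ≠ ∞ → ∃ K : ℝ≥0∞, K ≠ ∞ ∧
  ∀ w : ℝ → ℝ≥0∞, Wt r w C →
  ∀ f : ℝ → ℝ≥0∞, Measurable f → ∫⁻ x, Mx f x ^ r * w x ≤ K * ∫⁻ x, f x ^ r * w x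

/-- **RDF**: the algorithm of Rubio de Francia. -/
def S_RDF : Prop := ∀ (p : ℝ) (C : ℝ≥0∞), 1 < p → C ≠ ∞ → ∃ K : ℝ≥0∞, K ≠ ∞ ∧
  ∀ w : ℝ → ℝ≥0∞, Wt p w C →
  ∀ f : ℝ → ℝ≥0∞, Measurable f → ∫⁻ x, f x ^ p * w x ≠ ∞ → ¬ (f =ᵐ[volume] 0) →
  ∃ g : ℝ → ℝ≥0∞, Measurable g ∧ (∀ x, g x ≠ 0) ∧ (∀ x, g x ≠ ∞) ∧
    (∀ᵐ x, f x ≤ g x) ∧ (∀ᵐ x, Mx g x ≤ K * g x) ∧
    ∫⁻ x, g x ^ p * w x ≤ K * ∫⁻ x, f x ^ p * w x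

/-- **W2**: the weight `g ^ (p - 2) * w` is in `A_2`. -/
def S_W2 : Prop := ∀ (p : ℝ) (C K : ℝ≥0∞), 1 < p → p < 2 → C ≠ ∞ → K ≠ ∞ →
  ∃ C' : ℝ≥0∞, C' ≠ ∞ ∧ ∀ w g : ℝ → ℝ≥0∞, Wt p w C → Measurable g → (∀ x, g x ≠ 0) →
  (∀ x, g x ≠ ∞) → (∀ᵐ x, Mx g x ≤ K * g x) → Wt 2 (fun x => g x ^ (p - 2) * w x) C'

/-- **B2**: weights in `A_2` satisfy the condition `B_2`. -/
def S_B2 : Prop := ∀ C : ℝ≥0∞, C ≠ ∞ → ∃ K : ℝ≥0∞, K ≠ ∞ ∧ ∀ v : ℝ → ℝ≥0∞, Wt 2 v C →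
  ∀ z y : ℝ, 0 < y → ∫⁻ t, v t * ENNReal.ofReal (y / ((z - t) ^ 2 + y ^ 2)) ≤
    K * (∫⁻ t in I z y, v t) / ENNReal.ofReal y

/-! ### Poisson integrals -/

/-- **POI**: Poisson integrals are imaginary parts of holomorphic functions. -/
def S_POI : Prop := ∀ f : ℝ → ℝ, Measurable f → Integrable (fun t => f t / (1 + t ^ 2)) →
  ∃ Φ : ℂ → ℂ,
    (∀ ζ : ℂ, 0 < ζ.im → HasDerivAt Φ ((1 / Real.pi : ℝ) * ∫ t : ℝ, (f t : ℂ) / (t - ζ) ^ 2) ζ) ∧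
    (∀ ζ : ℂ, 0 < ζ.im → (Φ ζ).im = P f ζ.re ζ.im) ∧
    ∀ ζ : ℂ, 0 < ζ.im → gradSq f ζ.re ζ.im = ‖deriv Φ ζ‖ ^ 2

/-- **BELL**: the Bellman function. -/
def S_BELL : Prop := ∀ (Q : ℝ) (ΦF Φf ΦW ΦV : ℂ → ℂ), 
  DifferentiableOn ℂ ΦF {ζ | 0 < ζ.im} → DifferentiableOn ℂ Φf {ζ | 0 < ζ.im} →
  DifferentiableOn ℂ ΦW {ζ | 0 < ζ.im} → DifferentiableOn ℂ ΦV {ζ | 0 < ζ.im} →
  (∀ ζ : ℂ, 0 < ζ.im → 0 < (ΦW ζ).im ∧ 0 < (ΦV ζ).im ∧ 1 ≤ (ΦW ζ).im * (ΦV ζ).im ∧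
    (ΦW ζ).im * (ΦV ζ).im ≤ Q ∧ (Φf ζ).im ^ 2 ≤ (ΦF ζ).im * (ΦV ζ).im) →
  ∃ b bz bzz by' byy : ℝ → ℝ → ℝ,
    ContinuousOn (fun q : ℝ × ℝ => b q.1 q.2) (univ ×ˢ Ioi 0) ∧
    ContinuousOn (fun q : ℝ × ℝ => bzz q.1 q.2) (univ ×ˢ Ioi 0) ∧
    ContinuousOn (fun q : ℝ × ℝ => byy q.1 q.2) (univ ×ˢ Ioi 0) ∧
    (∀ z y : ℝ, 0 < y → HasDerivAt (fun s => b s y) (bz z y) z) ∧
    (∀ z y : ℝ, 0 < y → HasDerivAt (fun s => bz s y) (bzz z y) z) ∧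
    (∀ z y : ℝ, 0 < y → HasDerivAt (fun s => b z s) (by' z y) y) ∧
    (∀ z y : ℝ, 0 < y → HasDerivAt (fun s => by' z s) (byy z y) y) ∧
    (∀ z y : ℝ, 0 < y → 0 ≤ b z y ∧ b z y ≤ (Q + 6 * Q ^ 3) * (ΦF ⟨z, y⟩).im ∧
      (ΦW ⟨z, y⟩).im * ‖deriv Φf ⟨z, y⟩‖ ^ 2 ≤ -(bzz z y + byy z y))

/-- **GREEN**: Green's formula for positive superharmonic functions in the half plane. -/
def S_GREEN : Prop := ∃ C₀ : ℝ≥0∞, C₀ ≠ ∞ ∧ ∀ b bz bzz by' byy : ℝ → ℝ → ℝ,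
    ContinuousOn (fun q : ℝ × ℝ => b q.1 q.2) (univ ×ˢ Ioi 0) →
    ContinuousOn (fun q : ℝ × ℝ => bzz q.1 q.2) (univ ×ˢ Ioi 0) →
    ContinuousOn (fun q : ℝ × ℝ => byy q.1 q.2) (univ ×ˢ Ioi 0) →
    (∀ z y : ℝ, 0 < y → HasDerivAt (fun s => b s y) (bz z y) z) →
    (∀ z y : ℝ, 0 < y → HasDerivAt (fun s => bz s y) (bzz z y) z) →
    (∀ z y : ℝ, 0 < y → HasDerivAt (fun s => b z s) (by' z y) y) →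
    (∀ z y : ℝ, 0 < y → HasDerivAt (fun s => by' z s) (byy z y) y) →
    (∀ z y : ℝ, 0 < y → 0 ≤ b z y) →
    (∀ z y : ℝ, 0 < y → 0 ≤ -(bzz z y + byy z y)) →
    ∀ M : ℝ≥0∞, (∀ y : ℝ, 0 < y → ∫⁻ z, ENNReal.ofReal (b z y) ≤ M) →
    ∫⁻ z, ∫⁻ y in Ioi (0 : ℝ), ENNReal.ofReal (y * -(bzz z y + byy z y)) ≤ C₀ * M

/-- **A2**: the weighted estimate in `L²`. -/
def S_A2 : Prop := ∀ Q : ℝ, ∃ K : ℝ≥0∞, K ≠ ∞ ∧ ∀ w : ℝ → ℝ, Measurable w → (∀ x, 0 < w x) →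
  Integrable (fun t => w t / (1 + t ^ 2)) → Integrable (fun t => (w t)⁻¹ / (1 + t ^ 2)) →
  (∀ z y : ℝ, 0 < y → P w z y * P (fun t => (w t)⁻¹) z y ≤ Q) →
  ∀ f : ℝ → ℝ, Measurable f → Integrable (fun t => f t ^ 2 * w t) →
  ∫⁻ z, ∫⁻ y in Ioi (0 : ℝ), ENNReal.ofReal (y * (P w z y * gradSq f z y)) ≤
    K * ∫⁻ t, ENNReal.ofReal (f t ^ 2 * w t)

/-- **AREA**: the weighted estimate for the area function. -/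
def S_AREA : Prop := ∀ (p : ℝ) (C : ℝ≥0∞), 1 < p → p < 2 → C ≠ ∞ → ∃ K : ℝ≥0∞, K ≠ ∞ ∧
  ∀ w : ℝ → ℝ≥0∞, Wt p w C → ∀ f : ℝ → ℝ, Measurable f →
  ∫⁻ x, ENNReal.ofReal |f x| ^ p * w x ≠ ∞ →
  Integrable (fun t => f t / (1 + t ^ 2)) ∧
  ∫⁻ x, AA 1 (fun z y => ENNReal.ofReal (gradSq f z y)) x ^ (p / 2) * w x ≤
    K * ∫⁻ x, ENNReal.ofReal |f x| ^ p * w x

/-! ### Apertures and the kernel -/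

/-- **APER**: the change of the aperture. -/
def S_APER : Prop := ∀ (s q : ℝ) (D : ℝ≥0∞), 0 < s → s < 1 → 0 < q → D ≠ ∞ →
  ∃ K : ℝ≥0∞, K ≠ ∞ ∧ ∀ w : ℝ → ℝ≥0∞, Measurable w → (∀ x, w x ≠ 0) → (∀ x, w x ≠ ∞) →
  (∀ z y : ℝ, ∫⁻ x in I z y, w x ≠ ∞) →
  (∀ z y t : ℝ, 0 < y → 1 ≤ t →
    ∫⁻ x in I z (t * y), w x ≤ D * ENNReal.ofReal (t ^ q) * ∫⁻ x in I z y, w x) →
  ∀ G : ℝ → ℝ → ℝ≥0∞, Measurable (fun q : ℝ × ℝ => G q.1 q.2) → ∀ a : ℝ, 1 ≤ a →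
  ∫⁻ x, AA a G x ^ s * w x ≤ K * ENNReal.ofReal (a ^ q) * ∫⁻ x, AA 1 G x ^ s * w x

/-- **KER**: the kernel of `g_λ^*` is a sum of kernels of area functions. -/
def S_KER : Prop := ∀ (l : ℝ), 0 < l → ∀ G : ℝ → ℝ → ℝ≥0∞,
  Measurable (fun q : ℝ × ℝ => G q.1 q.2) → ∀ x : ℝ,
  ∫⁻ z, ∫⁻ y in Ioi (0 : ℝ), ENNReal.ofReal ((y / (|x - z| + y)) ^ l) * G z y ≤
    ENNReal.ofReal (2 ^ l) * ∑' k : ℕ, ENNReal.ofReal ((2 ^ (-l)) ^ k) * AA (2 ^ k) G x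

/-! ### Necessity -/

/-- The inequality. -/
def Star (l p : ℝ) (U : ℝ → ℝ) : Prop :=
  ∃ C : ℝ≥0, ∀ f : ℝ → ℝ, Measurable f → ∫⁻ x, ENNReal.ofReal (|f x| ^ p * U x) ≠ ∞ →
    ∫⁻ x, gstar l f x ^ p * ENNReal.ofReal (U x) ≤
      C * ∫⁻ x, ENNReal.ofReal (|f x| ^ p * U x)

/-- **NEC**: the test functions. -/
def S_NEC : Prop := ∀ l p : ℝ, 1 < l → l ≤ 2 → 1 < p → p < 2 → ∀ U : ℝ → ℝ, (∀ x, 0 ≤ U x) →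
  LocallyIntegrable U → Star l p U → ∃ C : ℝ≥0, ∀ z y : ℝ, 0 < y →
    (∫⁻ x, ENNReal.ofReal ((y / (|x - z| + y)) ^ (l * p / 2) * U x) ≤
      C * ∫⁻ x in I z y, ENNReal.ofReal (U x)) ∧
    (∫⁻ x in I z y, ENNReal.ofReal (U x)) *
      (∫⁻ x in I z y, ENNReal.ofReal (U x) ^ (-(1 / (p - 1)))) ^ (p - 1) ≤
        C * ENNReal.ofReal y ^ p

end Pool.Agent.K3h74.GL
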