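import Pool.Agent.K3h74.GL.Fin

/-!
# Sufficiency from the steps
-/

set_option autoImplicit false

open MeasureTheory Set
open scoped ENNReal NNReal

namespace Pool.Agent.K3h74.GL

open Pool.Agent.K3h74.GL.Gap (A B J)

lemma sum_rpow_le {s : ℝ} (hs0 : 0 < s) (hs1 : s ≤ 1) (a : ℕ → ℝ≥0∞) (n : ℕ) :
    (∑ k ∈ Finset.range n, a k) ^ s ≤ ∑ k ∈ Finset.range n, a k ^ s := by
  induction n with
  | zero => simp [hs0]
  | succ n ih =>
    rw [Finset.sum_range_succ, Finset.sum_range_succ]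
    exact (ENNReal.rpow_add_le_add_rpow _ _ hs0.le hs1).trans (by gcongr)

lemma tsum_rpow_le {s : ℝ} (hs0 : 0 < s) (hs1 : s ≤ 1) (a : ℕ → ℝ≥0∞) :
    (∑' k, a k) ^ s ≤ ∑' k, a k ^ s := by
  have h1 : Filter.Tendsto (fun n => (∑ k ∈ Finset.range n, a k) ^ s) Filter.atTop
      (nhds ((∑' k, a k) ^ s)) :=
    (ENNReal.continuous_rpow_const.tendsto _).comp (ENNReal.tendsto_nat_tsum a)
  refine le_of_tendsto' h1 fun n => (sum_rpow_le hs0 hs1 a n).trans ?_
  exact ENNReal.sum_le_tsum _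

lemma measurable_AA (a : ℝ) {G : ℝ → ℝ → ℝ≥0∞} (hG : Measurable (fun q : ℝ × ℝ => G q.1 q.2)) :
    Measurable (AA a G) := by
  unfold AA
  have h1 : Measurable (fun q : (ℝ × ℝ) × ℝ => if |q.1.1 - q.1.2| < a * q.2 then
      G q.1.2 q.2 else 0) := by
    refine Measurable.ite ?_ ?_ measurable_const
    · apply measurableSet_lt
      · exact ((measurable_fst.fst).sub (measurable_fst.snd)).abs
      · exact measurable_const.mul measurable_snd
    · exact hG.comp ((measurable_fst.snd).prodMk measurable_snd)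
  have h2 : Measurable (fun q : ℝ × ℝ => ∫⁻ y in Ioi (0 : ℝ), if |q.1 - q.2| < a * y then
      G q.2 y else 0) := h1.lintegral_prod_right'
  exact h2.lintegral_prod_right'

lemma AA_congr (a : ℝ) {G G' : ℝ → ℝ → ℝ≥0∞} (h : ∀ z y, 0 < y → G z y = G' z y) (x : ℝ) :
    AA a G x = AA a G' x := by
  unfold AA
  refine lintegral_congr fun z => ?_
  refine setLIntegral_congr_fun measurableSet_Ioi fun y hy => ?_
  rw [h z y hy]

/-- the gradient of a Poisson integral is measurable -/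
lemma measurable_grad (hPOI : S_POI) {f : ℝ → ℝ} (hf : Measurable f)
    (hi : Integrable (fun t => f t / (1 + t ^ 2))) :
    Measurable (fun q : ℝ × ℝ => if 0 < q.2 then ENNReal.ofReal (gradSq f q.1 q.2) else 0) := by
  obtain ⟨Φ, h1, -, h3⟩ := hPOI f hf hi
  have hopen : IsOpen {ζ : ℂ | 0 < ζ.im} := isOpen_lt continuous_const Complex.continuous_im
  have hd : DifferentiableOn ℂ Φ {ζ : ℂ | 0 < ζ.im} := fun ζ hζ =>
    (h1 ζ hζ).differentiableAt.differentiableWithinAt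
  have hc : ContinuousOn (deriv Φ) {ζ : ℂ | 0 < ζ.im} := (hd.deriv hopen).continuousOn
  have hset : MeasurableSet {q : ℝ × ℝ | 0 < q.2} := measurableSet_lt measurable_const measurable_snd
  have hopen2 : IsOpen {q : ℝ × ℝ | 0 < q.2} := isOpen_lt continuous_const continuous_snd
  have h4 : (fun q : ℝ × ℝ => if 0 < q.2 then ENNReal.ofReal (gradSq f q.1 q.2) else 0) =
      {q : ℝ × ℝ | 0 < q.2}.indicator
        (fun q => ENNReal.ofReal (‖deriv Φ (⟨q.1, q.2⟩ : ℂ)‖ ^ 2)) := by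
    ext q
    by_cases hq : 0 < q.2
    · rw [if_pos hq, indicator_of_mem (show q ∈ {q : ℝ × ℝ | 0 < q.2} from hq)]
      have := h3 ⟨q.1, q.2⟩ hq
      simp only at this
      rw [this]
    · rw [if_neg hq, indicator_of_notMem (show q ∉ {q : ℝ × ℝ | 0 < q.2} from hq)]
  rw [h4]
  have hmk : Continuous (fun q : ℝ × ℝ => (⟨q.1, q.2⟩ : ℂ)) :=
    Complex.equivRealProdCLM.symm.continuous
  have h5 : ContinuousOn (fun q : ℝ × ℝ => ENNReal.ofReal (‖deriv Φ (⟨q.1, q.2⟩ : ℂ)‖ ^ 2))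
      {q : ℝ × ℝ | 0 < q.2} := by
    apply ENNReal.continuous_ofReal.comp_continuousOn
    apply ContinuousOn.pow
    apply ContinuousOn.norm
    exact hc.comp hmk.continuousOn (fun q hq => hq)
  have h6 := h5.measurable_piecewise (g := fun _ => (0 : ℝ≥0∞)) continuousOn_const hset
  convert h6 using 1
  ext q
  simp [Set.indicator, Set.piecewise]

theorem suff (hPOI : S_POI) (hAREA : S_AREA) (hAPER : S_APER) (hKER : S_KER) (l p : ℝ)
    (hl1 : 1 < l) (hl2 : l ≤ 2) (hp1 : 2 / l < p) (hp2 : p < 2) (U : ℝ → ℝ)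
    (hU0 : ∀ x, 0 ≤ U x) (hU : LocallyIntegrable U volume) (hA : A p U) (q : ℝ) (hq1 : 1 < q)
    (hq2 : q < l * p / 2) (hB : B q U) :
    Star l p U ∧ (¬ (∀ᵐ x, U x = 0) → ∀ f : ℝ → ℝ, Measurable f →
      ∫⁻ x, ENNReal.ofReal (|f x| ^ p * U x) ≠ ∞ → Integrable (fun t => f t / (1 + t ^ 2))) := by
  have hl0 : 0 < l := by linarith
  have hp : 1 < p := by
    have : 1 ≤ 2 / l := by
      rw [le_div_iff₀ hl0]; linarith
    linarith
  by_cases hz : ∀ᵐ x, U x = 0
  · refine ⟨⟨0, fun f _ _ => ?_⟩, fun h => absurd hz h⟩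
    have h1 : ∫⁻ x, gstar l f x ^ p * ENNReal.ofReal (U x) = ∫⁻ x : ℝ, 0 := by
      apply lintegral_congr_ae
      filter_upwards [hz] with x hx
      rw [hx, ENNReal.ofReal_zero, mul_zero]
    rw [h1, lintegral_zero]
    exact zero_le
  have hz' : ¬ (∀ᵐ x, U x ≤ 0) := by
    intro h
    apply hz
    filter_upwards [h] with x hx
    exact le_antisymm hx (hU0 x)
  have hpos := zero_or_pos hp hU hA hz'
  -- the measurable positive version
  have hm := hU.aestronglyMeasurable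
  set U1 := hm.mk U with hU1
  have hU1m : Measurable U1 := hm.stronglyMeasurable_mk.measurable
  have hUU1 : U =ᵐ[volume] U1 := hm.ae_eq_mk
  set w : ℝ → ℝ≥0∞ := fun x => if 0 < U1 x then ENNReal.ofReal (U1 x) else 1 with hw
  have hUw : (fun x => ENNReal.ofReal (U x)) =ᵐ[volume] w := by
    filter_upwards [hUU1, hpos] with x hx hx'
    simp only [hw]
    rw [hx] at hx' ⊢
    rw [if_pos hx']
  have hUwI : ∀ z y : ℝ, ∫⁻ x in I z y, ENNReal.ofReal (U x) = ∫⁻ x in I z y, w x :=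
    fun z y => lintegral_congr_ae (ae_restrict_of_ae hUw)
  obtain ⟨C, hC⟩ := (A_iff hp U).1 hA
  have hWt : Wt p w C := by
    refine ⟨?_, ?_, ?_, ?_, ?_⟩
    · exact Measurable.ite (measurableSet_lt measurable_const hU1m) hU1m.ennreal_ofReal
        measurable_const
    · intro x
      simp only [hw]
      split_ifs with h
      · rw [Ne, ENNReal.ofReal_eq_zero]
        linarith
      · exact one_ne_zero
    · intro x
      simp only [hw]
      split_ifs with h
      · exact ENNReal.ofReal_ne_top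
      · exact ENNReal.one_ne_top
    · intro z y
      rw [← hUwI]
      exact loc_ofReal hU z y
    · intro z y hy
      have h1 := hC z y hy
      rw [hUwI] at h1
      have h2 : ∫⁻ x in I z y, ENNReal.ofReal (U x) ^ (-(1 / (p - 1))) =
          ∫⁻ x in I z y, w x ^ (-(1 / (p - 1))) := by
        apply lintegral_congr_ae
        apply ae_restrict_of_ae
        filter_upwards [hUw] with x hx
        rw [← hx]
      rw [h2] at h1
      exact h1
  obtain ⟨D, hD, hgrow⟩ := growth hq1 hU0 hB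
  have hgrow' : ∀ z y t : ℝ, 0 < y → 1 ≤ t →
      ∫⁻ x in I z (t * y), w x ≤ D * ENNReal.ofReal (t ^ q) * ∫⁻ x in I z y, w x := by
    intro z y t hy ht
    rw [← hUwI, ← hUwI]
    exact hgrow z y t hy ht
  have hfw : ∀ f : ℝ → ℝ, ∫⁻ x, ENNReal.ofReal (|f x| ^ p * U x) =
      ∫⁻ x, ENNReal.ofReal |f x| ^ p * w x := by
    intro f
    apply lintegral_congr_ae
    filter_upwards [hUw] with x hx
    rw [ENNReal.ofReal_mul (Real.rpow_nonneg (abs_nonneg _) _), hx,
      ENNReal.ofReal_rpow_of_nonneg (abs_nonneg _) (by linarith)]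
  obtain ⟨K1, hK1, hAr⟩ := hAREA p C hp hp2 ENNReal.coe_ne_top
  obtain ⟨K2, hK2, hAp⟩ := hAPER (p / 2) q D (by linarith) (by linarith) (by linarith) hD
  refine ⟨?_, fun _ f hf hfin => ?_⟩
  swap
  · rw [hfw] at hfin
    exact (hAr w hWt f hf hfin).1
  -- the constant
  set ρ : ℝ := 2 ^ (q - l * p / 2) with hρ
  have hρ0 : 0 < ρ := Real.rpow_pos_of_pos (by norm_num) _
  have hρ1 : ρ < 1 := Real.rpow_lt_one_of_one_lt_of_neg (by norm_num) (by linarith)
  have hgeo : ∑' k : ℕ, ENNReal.ofReal ρ ^ k ≠ ∞ := by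
    rw [ENNReal.tsum_geometric, ENNReal.inv_ne_top]
    rw [Ne, tsub_eq_zero_iff_le, not_le, ← ENNReal.ofReal_one]
    exact (ENNReal.ofReal_lt_ofReal_iff (by norm_num)).2 hρ1
  set Kc : ℝ≥0∞ := ENNReal.ofReal (2 ^ l) ^ (p / 2) * (K2 * K1) *
    ∑' k : ℕ, ENNReal.ofReal ρ ^ k with hKc
  have hKc' : Kc ≠ ∞ := by
    refine ENNReal.mul_ne_top (ENNReal.mul_ne_top ?_ (ENNReal.mul_ne_top hK2 hK1)) hgeo
    exact ENNReal.rpow_ne_top_of_nonneg (by linarith) ENNReal.ofReal_ne_top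
  refine ⟨Kc.toNNReal, fun f hf hfin => ?_⟩
  rw [ENNReal.coe_toNNReal hKc', hfw]
  rw [hfw] at hfin
  obtain ⟨hint, hbd⟩ := hAr w hWt f hf hfin
  set G : ℝ → ℝ → ℝ≥0∞ := fun z y => if 0 < y then ENNReal.ofReal (gradSq f z y) else 0 with hG
  have hGm : Measurable (fun q : ℝ × ℝ => G q.1 q.2) := measurable_grad hPOI hf hint
  have hAA : ∀ x, AA 1 (fun z y => ENNReal.ofReal (gradSq f z y)) x = AA 1 G x := fun x =>
    AA_congr 1 (fun z y hy => by simp only [hG]; rw [if_pos hy]) x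
  simp_rw [hAA] at hbd
  have hgs : ∀ x, gstar l f x ^ p ≤ ENNReal.ofReal (2 ^ l) ^ (p / 2) *
      ∑' k : ℕ, ENNReal.ofReal ((2 ^ (-l)) ^ k) ^ (p / 2) * AA (2 ^ k) G x ^ (p / 2) := by
    intro x
    unfold gstar
    rw [← ENNReal.rpow_mul, one_div_mul_eq_div]
    have h1 : ∫⁻ z, ∫⁻ y in Ioi (0 : ℝ),
        ENNReal.ofReal ((y / (|x - z| + y)) ^ l * gradSq f z y) =
        ∫⁻ z, ∫⁻ y in Ioi (0 : ℝ), ENNReal.ofReal ((y / (|x - z| + y)) ^ l) * G z y := by
      refine lintegral_congr fun z => ?_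
      refine setLIntegral_congr_fun measurableSet_Ioi fun y hy => ?_
      simp only [hG]
      have hy0 : 0 < y := hy
      rw [if_pos hy0, ENNReal.ofReal_mul]
      apply Real.rpow_nonneg
      positivity
    rw [h1]
    calc (∫⁻ z, ∫⁻ y in Ioi (0 : ℝ), ENNReal.ofReal ((y / (|x - z| + y)) ^ l) * G z y) ^ (p / 2)
        ≤ (ENNReal.ofReal (2 ^ l) * ∑' k : ℕ, ENNReal.ofReal ((2 ^ (-l)) ^ k) *
            AA (2 ^ k) G x) ^ (p / 2) :=
          ENNReal.rpow_le_rpow (hKER l hl0 G hGm x) (by linarith)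
      _ = ENNReal.ofReal (2 ^ l) ^ (p / 2) * (∑' k : ℕ, ENNReal.ofReal ((2 ^ (-l)) ^ k) *
            AA (2 ^ k) G x) ^ (p / 2) := ENNReal.mul_rpow_of_nonneg _ _ (by linarith)
      _ ≤ ENNReal.ofReal (2 ^ l) ^ (p / 2) * ∑' k : ℕ, (ENNReal.ofReal ((2 ^ (-l)) ^ k) *
            AA (2 ^ k) G x) ^ (p / 2) := by
          gcongr
          exact tsum_rpow_le (by linarith) (by linarith) _
      _ = _ := by
          congr 2
          ext k
          exact ENNReal.mul_rpow_of_nonneg _ _ (by linarith)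
  calc ∫⁻ x, gstar l f x ^ p * ENNReal.ofReal (U x)
      = ∫⁻ x, gstar l f x ^ p * w x := by
        apply lintegral_congr_ae
        filter_upwards [hUw] with x hx
        rw [hx]
    _ ≤ ∫⁻ x, ENNReal.ofReal (2 ^ l) ^ (p / 2) * ∑' k : ℕ,
          (ENNReal.ofReal ((2 ^ (-l)) ^ k) ^ (p / 2) * (AA (2 ^ k) G x ^ (p / 2) * w x)) := by
        apply lintegral_mono
        intro x
        simp only
        calc gstar l f x ^ p * w x ≤ (ENNReal.ofReal (2 ^ l) ^ (p / 2) *
              ∑' k : ℕ, ENNReal.ofReal ((2 ^ (-l)) ^ k) ^ (p / 2) * AA (2 ^ k) G x ^ (p / 2)) *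
                w x := by gcongr; exact hgs x
          _ = _ := by
            rw [mul_assoc, ← ENNReal.tsum_mul_right]
            congr 2
            ext k
            ring
    _ = ENNReal.ofReal (2 ^ l) ^ (p / 2) * ∑' k : ℕ,
          (ENNReal.ofReal ((2 ^ (-l)) ^ k) ^ (p / 2) * ∫⁻ x, AA (2 ^ k) G x ^ (p / 2) * w x) := by
        have hmeas : ∀ k : ℕ, Measurable (fun x => AA (2 ^ k) G x ^ (p / 2) * w x) := fun k =>
          ((measurable_AA (2 ^ k) hGm).pow_const _).mul hWt.meas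
        rw [lintegral_const_mul _ (by
          apply Measurable.ennreal_tsum
          intro k
          exact (hmeas k).const_mul _), lintegral_tsum (fun k =>
            ((hmeas k).const_mul _).aemeasurable)]
        congr 2
        ext k
        rw [lintegral_const_mul _ (hmeas k)]
    _ ≤ ENNReal.ofReal (2 ^ l) ^ (p / 2) * ∑' k : ℕ, (K2 * K1 *
          (∫⁻ x, ENNReal.ofReal |f x| ^ p * w x) * ENNReal.ofReal ρ ^ k) := by
        refine mul_le_mul_right (ENNReal.tsum_le_tsum fun k => ?_) _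
        have h1 := hAp w hWt.meas hWt.pos hWt.fin hWt.loc hgrow' G hGm (2 ^ k)
          (one_le_pow₀ (by norm_num))
        have h2 : ENNReal.ofReal ((2 ^ (-l)) ^ k) ^ (p / 2) * ENNReal.ofReal (((2 : ℝ) ^ k) ^ q) =
            ENNReal.ofReal ρ ^ k := by
          rw [ENNReal.ofReal_rpow_of_pos (by positivity), ← ENNReal.ofReal_mul (by positivity),
            ← ENNReal.ofReal_pow hρ0.le]
          congr 1
          have h20 : (0 : ℝ) ≤ 2 := by norm_num
          have e1 : (((2 : ℝ) ^ (-l)) ^ k) ^ (p / 2) = 2 ^ (-l * k * (p / 2)) := by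
            rw [← Real.rpow_natCast, ← Real.rpow_mul h20, ← Real.rpow_mul h20]
          have e2 : ((2 : ℝ) ^ k) ^ q = 2 ^ (k * q) := by
            rw [← Real.rpow_natCast, ← Real.rpow_mul h20]
          have e3 : ρ ^ k = 2 ^ ((q - l * p / 2) * k) := by
            rw [hρ, ← Real.rpow_natCast, ← Real.rpow_mul h20]
          rw [e1, e2, e3, ← Real.rpow_add (by norm_num)]
          congr 1
          ring
        calc ENNReal.ofReal ((2 ^ (-l)) ^ k) ^ (p / 2) * ∫⁻ x, AA (2 ^ k) G x ^ (p / 2) * w x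
            ≤ ENNReal.ofReal ((2 ^ (-l)) ^ k) ^ (p / 2) * (K2 * ENNReal.ofReal (((2 : ℝ) ^ k) ^ q) *
              ∫⁻ x, AA 1 G x ^ (p / 2) * w x) := by gcongr
          _ ≤ ENNReal.ofReal ((2 ^ (-l)) ^ k) ^ (p / 2) * (K2 * ENNReal.ofReal (((2 : ℝ) ^ k) ^ q) *
              (K1 * ∫⁻ x, ENNReal.ofReal |f x| ^ p * w x)) := by gcongr
          _ = K2 * K1 * (∫⁻ x, ENNReal.ofReal |f x| ^ p * w x) *
              (ENNReal.ofReal ((2 ^ (-l)) ^ k) ^ (p / 2) *
                ENNReal.ofReal (((2 : ℝ) ^ k) ^ q)) := by ring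
          _ = _ := by rw [h2]
    _ = Kc * ∫⁻ x, ENNReal.ofReal |f x| ^ p * w x := by
        rw [ENNReal.tsum_mul_left, hKc]
        ring

end Pool.Agent.K3h74.GL
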